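import Pool.Agent.W5h91.Nip.Tame

/-! The back and forth property for tuples of integers: the generic case. -/

set_option autoImplicit false
set_option linter.all false

namespace Pool.Agent.W5h91.Nip

open Filter Topology Finset

variable {d : ℕ} {γ : Fin d → ℝ}

/-- the vector with the coordinates `x` and `η` -/
noncomputable def up {ι : Type} (γ : Fin d → ℝ) (M : ℕ) (x : ι → ℤ) (η : Fin d → ℝ) :
    Option ι × Fin d → ℝ :=
  fun q => match q.1 with
    | none => η q.2
    | some i => vec γ M x (i, q.2)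

theorem up_fr {ι : Type} (M : ℕ) (x : ι → ℤ) (y : ℤ) : up γ M x (fr γ M y) = vec γ M (ext x y) := by
  funext q
  obtain ⟨o, j⟩ := q
  cases o with
  | none => rfl
  | some i => rfl

theorem lf_up {ι : Type} [Fintype ι] (M : ℕ) (x : ι → ℤ) (η : Fin d → ℝ) (m : Option ι × Fin d → ℤ)
    (k : ℤ) : lf m k (up γ M x η) = ∑ j, (m (none, j) : ℝ) * η j +
      lf (fun q : ι × Fin d => m (some q.1, q.2)) k (vec γ M x) := by
  rw [lf_ext]
  rfl

/-- case 1 of the back and forth property -/
theorem bf_dense {ι : Type} [Fintype ι] (hγ : Indep γ) {M N : ℕ} (hM : 0 < M) (hN : 0 < N) (Q : ℕ)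
    (hQ : 0 < Q) (B : ℤ) (hB : 1 ≤ B) :
    ∃ B' : ℤ, 0 ≤ B' ∧ ∀ x x' : ι → ℤ, REqv Finset.univ B' (vec γ (M * Q) x) (vec γ (M * Q) x') →
      ∀ y : ℤ, (∀ (m : Option ι × Fin d → ℤ) (k : ℤ), (∀ q, |m q| ≤ B) → |k| ≤ B →
        (∃ j, m (none, j) ≠ 0) → lf m k (vec γ M (ext x y)) ≠ 0) →
      ∃ y' : ℤ, (N : ℤ) ∣ y - y' ∧
        REqv Finset.univ B (vec γ M (ext x y)) (vec γ M (ext x' y')) := by
  classical
  set s : Finset (Option ι × Fin d) := Finset.univ.filter fun q => q.1 ≠ none with hs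
  set t : Finset (Option ι × Fin d) := Finset.univ.filter fun q => q.1 = none with ht
  have hst : Disjoint s t := by
    rw [Finset.disjoint_left]
    intro q h1 h2
    rw [hs, Finset.mem_filter] at h1
    rw [ht, Finset.mem_filter] at h2
    exact h1.2 h2.2
  have hun : s ∪ t = Finset.univ := by
    ext q
    rw [Finset.mem_union, hs, ht, Finset.mem_filter, Finset.mem_filter]
    have := Finset.mem_univ q
    tauto
  obtain ⟨B1, hB1, hblock⟩ := block s t hst B (by omega)
  obtain ⟨B', hB', href⟩ := Eqv.refine (γ := γ) (ι := ι) M Q hQ B1 hB1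
  refine ⟨B', hB', ?_⟩
  intro x x' hx y hgen
  have h0 := href x x' hx
  have h1 : REqv s B1 (vec γ M (ext x y)) (vec γ M (ext x' 0)) := by
    intro m k hm hms hk
    rw [← up_fr, ← up_fr, lf_up, lf_up]
    have hz : ∀ η : Fin d → ℝ, ∑ j, (m (none, j) : ℝ) * η j = 0 := by
      intro η
      apply Finset.sum_eq_zero
      intro j _
      rw [hms (none, j) (by rw [hs, Finset.mem_filter]; simp)]
      simp
    rw [hz, hz, zero_add, zero_add]
    exact h0 _ k (fun i => hm _) (fun i hi => absurd (Finset.mem_univ i) hi) hk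
  obtain ⟨z, hz1, hz2⟩ := hblock _ _ h1
  rw [hun] at hz2
  obtain ⟨η, hη⟩ : ∃ η : Fin d → ℝ, η = fun j => z (none, j) := ⟨_, rfl⟩
  have hz : z = up γ M x' η := by
    funext q
    obtain ⟨o, j⟩ := q
    cases o with
    | none => rw [hη]; rfl
    | some i =>
      rw [hz1 (some i, j) (by rw [ht, Finset.mem_filter]; simp)]
      rfl
  rw [hz] at hz2
  -- no form with a nontrivial coefficient vanishes
  have hne : ∀ (m : Option ι × Fin d → ℤ) (k : ℤ), (∀ q, |m q| ≤ B) → |k| ≤ B →
        (∃ j, m (none, j) ≠ 0) → lf m k (up γ M x' η) ≠ 0 := by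
    intro m k hm hk hj h00
    rcases lt_trichotomy (lf m k (vec γ M (ext x y))) 0 with h2 | h2 | h2
    · have h3 : 0 < lf (-m) (-k) (vec γ M (ext x y)) := by rw [lf_neg]; linarith
      have h4 := (hz2 (-m) (-k) (fun q => by rw [Pi.neg_apply, abs_neg]; exact hm q)
        (fun q hq => absurd (Finset.mem_univ q) hq) (by rw [abs_neg]; exact hk)).mp h3
      rw [lf_neg] at h4
      linarith
    · exact hgen m k hm hk hj h2
    · have h4 := (hz2 m k hm (fun q hq => absurd (Finset.mem_univ q) hq) hk).mp h2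
      linarith
  -- the point is in the open cube
  have hcube : ∀ j, 0 < η j ∧ η j < 1 := by
    intro j
    have e1 : ∀ (w : Option ι × Fin d → ℝ) (k : ℤ),
        lf (Pi.single (none, j) (1 : ℤ)) k w = w (none, j) + k := by
      intro w k
      unfold lf
      rw [Finset.sum_eq_single (none, j)]
      · simp
      · intro b _ hb
        rw [Pi.single_eq_of_ne hb]; simp
      · intro hq; exact absurd (Finset.mem_univ _) hq
    have hb : ∀ q, |(Pi.single (none, j) (1 : ℤ) : Option ι × Fin d → ℤ) q| ≤ B := by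
      intro q
      by_cases hq : q = (none, j)
      · rw [hq, Pi.single_eq_same]; simpa using hB
      · rw [Pi.single_eq_of_ne hq, abs_zero]; omega
    have hex : ∃ j', (Pi.single (none, j) (1 : ℤ) : Option ι × Fin d → ℤ) (none, j') ≠ 0 :=
      ⟨j, by rw [Pi.single_eq_same]; exact one_ne_zero⟩
    have hmem := vec_mem γ M (ext x y) (none, j)
    have hnz := hgen _ 0 hb (by rw [abs_zero]; omega) hex
    rw [e1, Int.cast_zero, add_zero] at hnz
    constructor
    · have h2 := (hz2 _ 0 hb (fun q hq => absurd (Finset.mem_univ q) hq) (by rw [abs_zero]; omega)).mp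
        (by rw [e1, Int.cast_zero, add_zero]; exact lt_of_le_of_ne hmem.1 (Ne.symm hnz))
      rw [e1, Int.cast_zero, add_zero] at h2
      exact h2
    · have h2 := (hz2 (-Pi.single (none, j) (1 : ℤ)) (-(-1))
        (fun q => by rw [Pi.neg_apply, abs_neg]; exact hb q)
        (fun q hq => absurd (Finset.mem_univ q) hq) (by simpa using hB)).mp
        (by rw [lf_neg, e1]; push_cast; linarith [hmem.2])
      rw [lf_neg, e1] at h2
      push_cast at h2
      have h3 : up γ M x' η (none, j) = η j := rfl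
      rw [h3] at h2
      linarith
  -- a neighbourhood
  have hev : ∀ᶠ η' in 𝓝 η, ∀ v ∈ (Fintype.piFinset fun _ : Option ι × Fin d => Finset.Icc (-B) B) ×ˢ
      Finset.Icc (-B) B, 0 < lf v.1 v.2 (up γ M x' η) → 0 < lf v.1 v.2 (up γ M x' η') := by
    rw [Filter.eventually_all_finset]
    intro v _
    by_cases hpos : 0 < lf v.1 v.2 (up γ M x' η)
    · have hc : Continuous fun η' => lf v.1 v.2 (up γ M x' η') := by
        simp_rw [lf_up]
        fun_prop
      filter_upwards [hc.continuousAt.eventually (lt_mem_nhds hpos)] with η' h _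
      exact h
    · exact Filter.Eventually.of_forall fun η' h => absurd h hpos
  obtain ⟨y', hy', hU⟩ := dense_fr hγ hM hN y η hcube _ hev
  refine ⟨y', by rw [← neg_sub]; exact hy'.neg_right, ?_⟩
  have hU2 : ∀ (m : Option ι × Fin d → ℤ) (k : ℤ), (∀ q, |m q| ≤ B) → |k| ≤ B →
      0 < lf m k (up γ M x' η) → 0 < lf m k (up γ M x' (fr γ M y')) := by
    intro m k hm hk hpos
    refine hU (m, k) ?_ hpos
    rw [Finset.mem_product, Fintype.mem_piFinset]
    refine ⟨fun q => ?_, ?_⟩
    · rw [Finset.mem_Icc, ← abs_le]; exact hm q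
    · rw [Finset.mem_Icc, ← abs_le]; exact hk
  intro m k hm hmu hk
  rw [hz2 m k hm hmu hk, ← up_fr M x' y']
  by_cases hj : ∃ j, m (none, j) ≠ 0
  · refine ⟨hU2 m k hm hk, fun hpos => ?_⟩
    rcases lt_trichotomy (lf m k (up γ M x' η)) 0 with h2 | h2 | h2
    · have h3 := hU2 (-m) (-k) (fun q => by rw [Pi.neg_apply, abs_neg]; exact hm q)
        (by rw [abs_neg]; exact hk) (by rw [lf_neg]; linarith)
      rw [lf_neg] at h3
      linarith
    · exact absurd h2 (hne m k hm hk hj)
    · exact h2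
  · push Not at hj
    rw [lf_up, lf_up]
    have hz : ∀ η : Fin d → ℝ, ∑ j, (m (none, j) : ℝ) * η j = 0 := by
      intro η
      apply Finset.sum_eq_zero
      intro j _
      rw [hj j]
      simp
    rw [hz, hz]

/-- **the back and forth property** -/
theorem back {ι : Type} [Fintype ι] (hγ : Indep γ) (M N : ℕ) (hM : 0 < M) (hN : 0 < N) (B : ℕ) :
    ∃ (N' M' B' : ℕ), 0 < N' ∧ 0 < M' ∧ ∀ x x' : ι → ℤ, Eqv γ N' M' B' x x' →
      ∀ y : ℤ, ∃ y' : ℤ, Eqv γ N M B (ext x y) (ext x' y') := by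
  classical
  set C : ℕ := B + 1 with hC
  set Q : ℕ := C.factorial with hQ
  have hQ0 : 0 < Q := Nat.factorial_pos _
  obtain ⟨B1, hB1, h1⟩ := bf_dense (ι := ι) hγ hM hN Q hQ0 (C : ℤ) (by omega)
  obtain ⟨B2, hB2, h2⟩ := bf_alg (γ := γ) (ι := ι) (N := N) hM Q hQ0 (C : ℤ) (by omega)
  refine ⟨N * Q, M * Q, (B1 + B2).toNat, by positivity, by positivity, ?_⟩
  intro x x' hx y
  have hle1 : B1 ≤ ((B1 + B2).toNat : ℤ) := by omega
  have hle2 : B2 ≤ ((B1 + B2).toNat : ℤ) := by omega
  have hfin : ∀ y', Eqv γ N M (C : ℤ) (ext x y) (ext x' y') → Eqv γ N M (B : ℤ) (ext x y) (ext x' y') :=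
    fun y' h => ⟨h.1, h.2.mono (by omega)⟩
  by_cases hgen : ∀ (m : Option ι × Fin d → ℤ) (k : ℤ), (∀ q, |m q| ≤ (C : ℤ)) → |k| ≤ (C : ℤ) →
        (∃ j, m (none, j) ≠ 0) → lf m k (vec γ M (ext x y)) ≠ 0
  · obtain ⟨y', h3, h4⟩ := h1 x x' (hx.2.mono hle1) y hgen
    refine ⟨y', hfin y' ⟨?_, h4⟩⟩
    intro o
    cases o with
    | none => exact h3
    | some i =>
      refine dvd_trans ?_ (hx.1 i)
      push_cast
      exact dvd_mul_right _ _
  · push Not at hgen
    obtain ⟨m, k, hm, hk, ⟨j, hj⟩, h0⟩ := hgen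
    have hrel := relation hγ hM (ext x y) m k h0 j
    rw [Fintype.sum_option] at hrel
    change m (none, j) * y + ∑ i, m (some i, j) * x i = 0 at hrel
    have hx2 : Eqv γ (N * Q) (M * Q) B2 x x' := ⟨hx.1, hx.2.mono hle2⟩
    have hdvd : (m (none, j)).natAbs ∣ Q := by
      apply Nat.dvd_factorial
      · exact Int.natAbs_pos.mpr hj
      · have := hm (none, j)
        rw [Int.abs_eq_natAbs] at this
        omega
    rcases lt_or_gt_of_ne hj with hneg | hpos
    · obtain ⟨y', hy'⟩ := h2 x x' hx2 y (m (none, j)).natAbs (fun i => m (some i, j)) hdvd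
        (fun i => hm _) (by
          have : ((m (none, j)).natAbs : ℤ) = - m (none, j) := by omega
          rw [this]; linarith)
      exact ⟨y', hfin y' hy'⟩
    · obtain ⟨y', hy'⟩ := h2 x x' hx2 y (m (none, j)).natAbs (fun i => - m (some i, j)) hdvd
        (fun i => by rw [abs_neg]; exact hm _) (by
          have : ((m (none, j)).natAbs : ℤ) = m (none, j) := by omega
          rw [this]
          simp only [neg_mul, Finset.sum_neg_distrib]
          linarith)
      exact ⟨y', hfin y' hy'⟩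

end Pool.Agent.W5h91.Nip
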