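import Pool.Agent.W5h91.Nip.Back

/-! Formulas in the language of the group of integers with cyclic orders are tame. -/

set_option autoImplicit false
set_option linter.all false

namespace Pool.Agent.W5h91.Nip

open Filter Topology Finset FirstOrder

/-- the cyclic order `C_α` on the integers -/
def Cyc (α : ℝ) (a b c : ℤ) : Prop :=
  (Int.fract (a * α) < Int.fract (b * α) ∧ Int.fract (b * α) < Int.fract (c * α)) ∨
  (Int.fract (b * α) < Int.fract (c * α) ∧ Int.fract (c * α) < Int.fract (a * α)) ∨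
  (Int.fract (c * α) < Int.fract (a * α) ∧ Int.fract (a * α) < Int.fract (b * α))

/-- a binary function symbol -/
inductive CycFunc : ℕ → Type
  | add : CycFunc 2

/-- ternary relation symbols, indexed by `Fin n` -/
inductive CycRel (n : ℕ) : ℕ → Type
  | cyc (i : Fin n) : CycRel n 3

/-- the language with a binary function symbol and `n` ternary relation symbols -/
def cycLang (n : ℕ) : Language := ⟨CycFunc, CycRel n⟩

/-- the integers (with cyclic orders) -/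
def ZC {n : ℕ} (α : Fin n → ℝ) : Type := ℤ

/-- the structure `(ℤ; +, C_{α 0}, …, C_{α (n - 1)})` -/
instance ZC.structure {n : ℕ} (α : Fin n → ℝ) : (cycLang n).Structure (ZC α) where
  funMap := fun f v => match f with
    | CycFunc.add => (show ℤ from v 0) + (show ℤ from v 1)
  RelMap := fun R v => match R with
    | CycRel.cyc i => Cyc (α i) (v 0) (v 1) (v 2)

instance ZC.nonempty {n : ℕ} (α : Fin n → ℝ) : Nonempty (ZC α) := ⟨(0 : ℤ)⟩

section basis

theorem indep_sqrt : Indep (fun _ : Fin 1 => √2) := by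
  intro c k h
  rw [Fin.sum_univ_one] at h
  funext j
  have hj : j = 0 := Subsingleton.elim _ _
  rw [hj, Pi.zero_apply]
  by_contra hc
  have h1 : Irrational ((c 0 : ℝ) * √2) := irrational_sqrt_two.intCast_mul hc
  exact h1 ⟨(k : ℚ), by rw [h]; push_cast; rfl⟩

/-- an integral basis -/
theorem basis : ∀ (n : ℕ) (α : Fin n → ℝ), ∃ (d : ℕ) (γ : Fin d → ℝ) (D : ℕ) (a₀ : Fin n → ℤ)
    (a : Fin n → Fin d → ℤ), 0 < d ∧ 0 < D ∧ Indep γ ∧
      ∀ i, (D : ℝ) * α i = a₀ i + ∑ j, (a i j : ℝ) * γ j := by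
  intro n
  induction n with
  | zero =>
    intro α
    exact ⟨1, fun _ => √2, 1, fun i => i.elim0, fun i => i.elim0, one_pos, one_pos, indep_sqrt,
      fun i => i.elim0⟩
  | succ n ih =>
    intro α
    obtain ⟨d, γ, D, a₀, a, hd, hD, hγ, ha⟩ := ih (fun i => α i.castSucc)
    by_cases hind : Indep (Fin.snoc γ (α (Fin.last n)) : Fin (d + 1) → ℝ)
    · refine ⟨d + 1, Fin.snoc γ (α (Fin.last n)), D, Fin.snoc a₀ 0,
        Fin.snoc (fun i => (Fin.snoc (a i) 0 : Fin (d + 1) → ℤ)) (Fin.snoc 0 (D : ℤ)), by omega, hD,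
        hind, fun i => ?_⟩
      refine Fin.lastCases ?_ (fun i => ?_) i
      · simp only [Fin.snoc_last, Fin.sum_univ_castSucc, Fin.snoc_castSucc, Pi.zero_apply]
        simp
      · simp only [Fin.snoc_castSucc, Fin.sum_univ_castSucc, Fin.snoc_last]
        rw [ha i]
        simp
    · unfold Indep at hind
      push Not at hind
      obtain ⟨c, k, hck, hc⟩ := hind
      rw [Fin.sum_univ_castSucc] at hck
      simp only [Fin.snoc_castSucc, Fin.snoc_last] at hck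
      have hl : c (Fin.last d) ≠ 0 := by
        intro h0
        rw [h0, Int.cast_zero, zero_mul, add_zero] at hck
        have h1 := hγ (fun j => c j.castSucc) k hck
        apply hc
        funext j
        refine Fin.lastCases h0 (fun j => ?_) j
        exact congrFun h1 j
      obtain ⟨e, s, he, hs⟩ : ∃ (e : ℕ) (s : ℤ), 0 < e ∧ (e : ℤ) = s * c (Fin.last d) := by
        refine ⟨(c (Fin.last d)).natAbs, ?_⟩
        rcases lt_or_gt_of_ne hl with h | h
        · exact ⟨-1, Int.natAbs_pos.mpr hl, by omega⟩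
        · exact ⟨1, Int.natAbs_pos.mpr hl, by omega⟩
      have hs' : (e : ℝ) = s * c (Fin.last d) := by exact_mod_cast hs
      refine ⟨d, γ, D * e,
        Fin.snoc (fun i => (e : ℤ) * a₀ i) (D * s * k),
        Fin.snoc (fun i j => (e : ℤ) * a i j) (fun j => - (D * s * c j.castSucc)),
        hd, Nat.mul_pos hD he, hγ, fun i => ?_⟩
      refine Fin.lastCases ?_ (fun i => ?_) i
      · simp only [Fin.snoc_last]
        have e1 : ((D * e : ℕ) : ℝ) * α (Fin.last n) =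
            (D : ℝ) * s * (c (Fin.last d) * α (Fin.last n)) := by
          push_cast
          rw [hs']; ring
        have e2 : (c (Fin.last d) : ℝ) * α (Fin.last n) = k - ∑ j, (c j.castSucc : ℝ) * γ j := by
          linarith
        rw [e1, e2]
        push_cast
        rw [mul_sub, Finset.mul_sum, sub_eq_add_neg, ← Finset.sum_neg_distrib]
        congr 1
        apply Finset.sum_congr rfl
        intro j _
        ring
      · simp only [Fin.snoc_castSucc]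
        have e1 : ((D * e : ℕ) : ℝ) * α i.castSucc = (e : ℝ) * ((D : ℝ) * α i.castSucc) := by
          push_cast; ring
        rw [e1, ha i]
        push_cast
        rw [mul_add, Finset.mul_sum]
        congr 1
        apply Finset.sum_congr rfl
        intro j _
        ring

end basis

section tame

variable {d : ℕ} {γ : Fin d → ℝ} {ι : Type} [Fintype ι]

theorem Eqv.symm {N M : ℕ} {B : ℤ} {x x' : ι → ℤ} (h : Eqv γ N M B x x') : Eqv γ N M B x' x :=
  ⟨fun i => by rw [← neg_sub]; exact (h.1 i).neg_right, fun m k h1 h2 h3 => (h.2 m k h1 h2 h3).symm⟩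

/-- common refinement -/
theorem Eqv.common (N₁ M₁ : ℕ) (B₁ : ℕ) (N₂ M₂ : ℕ) (B₂ : ℕ) (h1 : 0 < N₁) (h2 : 0 < M₁) (h3 : 0 < N₂)
    (h4 : 0 < M₂) : ∃ N M B : ℕ, 0 < N ∧ 0 < M ∧ ∀ x x' : ι → ℤ, Eqv γ N M B x x' →
      Eqv γ N₁ M₁ B₁ x x' ∧ Eqv γ N₂ M₂ B₂ x x' := by
  obtain ⟨C1, hC1, hr1⟩ := Eqv.refine (γ := γ) (ι := ι) M₁ M₂ h4 (B₁ : ℤ) (by positivity)
  obtain ⟨C2, hC2, hr2⟩ := Eqv.refine (γ := γ) (ι := ι) M₂ M₁ h2 (B₂ : ℤ) (by positivity)
  refine ⟨N₁ * N₂, M₁ * M₂, (C1 + C2).toNat, by positivity, by positivity, fun x x' h => ⟨⟨?_, ?_⟩, ?_, ?_⟩⟩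
  · intro i
    refine dvd_trans ?_ (h.1 i)
    push_cast; exact dvd_mul_right _ _
  · exact hr1 x x' (h.2.mono (by omega))
  · intro i
    refine dvd_trans ?_ (h.1 i)
    push_cast; exact dvd_mul_left _ _
  · apply hr2 x x'
    rw [mul_comm M₂ M₁]
    exact h.2.mono (by omega)

/-- a property of tuples of integers which depends only on residue classes and on the signs of finitely
many forms in the fractional parts -/
def Tame (γ : Fin d → ℝ) (P : (ι → ℤ) → Prop) : Prop :=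
  ∃ N M B : ℕ, 0 < N ∧ 0 < M ∧ ∀ x x' : ι → ℤ, Eqv γ N M B x x' → (P x ↔ P x')

theorem Tame.and {P R : (ι → ℤ) → Prop} (hP : Tame γ P) (hR : Tame γ R) : Tame γ fun x => P x ∧ R x := by
  obtain ⟨N₁, M₁, B₁, h1, h2, h3⟩ := hP
  obtain ⟨N₂, M₂, B₂, h4, h5, h6⟩ := hR
  obtain ⟨N, M, B, hN, hM, h⟩ := Eqv.common (γ := γ) (ι := ι) N₁ M₁ B₁ N₂ M₂ B₂ h1 h2 h4 h5
  exact ⟨N, M, B, hN, hM, fun x x' hx => and_congr (h3 x x' (h x x' hx).1) (h6 x x' (h x x' hx).2)⟩

theorem Tame.or {P R : (ι → ℤ) → Prop} (hP : Tame γ P) (hR : Tame γ R) : Tame γ fun x => P x ∨ R x := by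
  obtain ⟨N₁, M₁, B₁, h1, h2, h3⟩ := hP
  obtain ⟨N₂, M₂, B₂, h4, h5, h6⟩ := hR
  obtain ⟨N, M, B, hN, hM, h⟩ := Eqv.common (γ := γ) (ι := ι) N₁ M₁ B₁ N₂ M₂ B₂ h1 h2 h4 h5
  exact ⟨N, M, B, hN, hM, fun x x' hx => or_congr (h3 x x' (h x x' hx).1) (h6 x x' (h x x' hx).2)⟩

theorem Tame.imp {P R : (ι → ℤ) → Prop} (hP : Tame γ P) (hR : Tame γ R) : Tame γ fun x => P x → R x := by
  obtain ⟨N₁, M₁, B₁, h1, h2, h3⟩ := hP
  obtain ⟨N₂, M₂, B₂, h4, h5, h6⟩ := hR
  obtain ⟨N, M, B, hN, hM, h⟩ := Eqv.common (γ := γ) (ι := ι) N₁ M₁ B₁ N₂ M₂ B₂ h1 h2 h4 h5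
  exact ⟨N, M, B, hN, hM, fun x x' hx => imp_congr (h3 x x' (h x x' hx).1) (h6 x x' (h x x' hx).2)⟩

/-- linear equations are tame -/
theorem tame_eq (hd : 0 < d) (hγ : Indep γ) (c : ι → ℤ) : Tame γ fun x => ∑ i, c i * x i = 0 := by
  classical
  obtain ⟨A, hA0, hA⟩ : ∃ A : ℤ, 0 ≤ A ∧ ∀ i, |c i| ≤ A := by
    refine ⟨∑ i, |c i|, Finset.sum_nonneg fun _ _ => abs_nonneg _, fun i => ?_⟩
    exact Finset.single_le_sum (f := fun i => |c i|) (fun _ _ => abs_nonneg _) (Finset.mem_univ i)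
  set m : ι × Fin d → ℤ := fun q => if q.2 = ⟨0, hd⟩ then c q.1 else 0 with hm
  have hmA : ∀ q, |m q| ≤ A := by
    intro q
    simp only [hm]
    split_ifs
    · exact hA _
    · rw [abs_zero]; exact hA0
  have key : ∀ x : ι → ℤ, ∑ i, c i * x i = 0 ↔ lf m 0 (vec γ 1 x) = ⌊lf m 0 (vec γ 1 x)⌋ := by
    intro x
    have e1 : lf m 0 (vec γ 1 x) = ∑ i, (c i : ℝ) * Int.fract ((x i : ℝ) * γ ⟨0, hd⟩ / (1 : ℕ)) := by
      unfold lf
      rw [Int.cast_zero, add_zero, Fintype.sum_prod_type]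
      apply Finset.sum_congr rfl
      intro i _
      rw [Finset.sum_eq_single ⟨0, hd⟩]
      · simp only [hm, if_true]; rfl
      · intro b _ hb
        simp only [hm, if_neg hb]; simp
      · intro hq; exact absurd (Finset.mem_univ _) hq
    have e2 : Int.fract (lf m 0 (vec γ 1 x)) = Int.fract (((∑ i, c i * x i : ℤ) : ℝ) * γ ⟨0, hd⟩) := by
      rw [e1, ← fract_sum]
      congr 1
      push_cast
      rw [Finset.sum_mul]
      apply Finset.sum_congr rfl
      intro i _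
      ring
    have e3 : lf m 0 (vec γ 1 x) = ⌊lf m 0 (vec γ 1 x)⌋ ↔ Int.fract (lf m 0 (vec γ 1 x)) = 0 := by
      unfold Int.fract
      rw [sub_eq_zero]
    rw [e3, e2]
    constructor
    · intro h
      rw [h]; simp
    · intro h
      rw [Int.fract_eq_iff] at h
      obtain ⟨-, -, K, hK⟩ := h
      rw [sub_zero] at hK
      have h1 := hγ (Pi.single ⟨0, hd⟩ (∑ i, c i * x i)) K (by
        rw [Finset.sum_eq_single ⟨0, hd⟩]
        · rw [Pi.single_eq_same]; exact hK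
        · intro b _ hb
          rw [Pi.single_eq_of_ne hb]; simp
        · intro hq; exact absurd (Finset.mem_univ _) hq)
      have h2 := congrFun h1 ⟨0, hd⟩
      rw [Pi.single_eq_same] at h2
      exact h2
  obtain ⟨S, hS0, hS⟩ : ∃ S : ℤ, 0 ≤ S ∧ S = ((Fintype.card (ι × Fin d) : ℕ) : ℤ) :=
    ⟨_, by positivity, rfl⟩
  have hAS := mul_nonneg hA0 hS0
  refine ⟨1, 1, (A + A * S + 1).toNat, one_pos, one_pos, fun x x' h => ?_⟩
  have hcast : (((A + A * S + 1).toNat : ℕ) : ℤ) = A + A * S + 1 := by omega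
  have h2 := h.2
  rw [hcast] at h2
  have h3 := floor_eq (vec_mem γ 1 x) h2 m hmA (by linarith) (by rw [← hS]; linarith)
  rw [← hS] at h3
  show (∑ i, c i * x i = 0) ↔ (∑ i, c i * x' i = 0)
  rw [key, key]
  have h4 : ∀ (z : ι × Fin d → ℝ), lf m 0 z = ⌊lf m 0 z⌋ ↔ ¬ 0 < lf m (-⌊lf m 0 z⌋) z := by
    intro z
    rw [lf_const m (-⌊lf m 0 z⌋)]
    have := Int.floor_le (lf m 0 z)
    push_cast
    constructor
    · intro h; rw [← h]; simp
    · intro h
      apply le_antisymm _ this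
      linarith
  rw [h4, h4, ← h3.1, h2 m (-⌊lf m 0 (vec γ 1 x)⌋) (fun q => (hmA q).trans (by linarith))
    (fun i hi => absurd (Finset.mem_univ i) hi) (by rw [abs_neg]; linarith [h3.2])]

/-- fractional parts of multiples of `α` -/
theorem frac_form {α : ℝ} {D : ℕ} (hD : 0 < D) (a₀ : ℤ) (a : Fin d → ℤ)
    (hα : (D : ℝ) * α = a₀ + ∑ j, (a j : ℝ) * γ j) (c : ι → ℤ) :
    ∃ (A : ℤ) (B' : ℤ) (m : ι × Fin d → ℤ), 0 ≤ A ∧ 0 ≤ B' ∧ (∀ q, |m q| ≤ A) ∧
      ∀ x x' : ι → ℤ, Eqv γ D D B' x x' → ∃ K : ℤ, |K| ≤ A ∧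
        (D : ℝ) * Int.fract (((∑ i, c i * x i : ℤ) : ℝ) * α) = lf m K (vec γ D x) ∧
        (D : ℝ) * Int.fract (((∑ i, c i * x' i : ℤ) : ℝ) * α) = lf m K (vec γ D x') := by
  classical
  have hD' : (D : ℝ) ≠ 0 := by positivity
  have hDz : (0 : ℤ) < D := by exact_mod_cast hD
  set m : ι × Fin d → ℤ := fun q => D * (c q.1 * a q.2) with hm
  obtain ⟨A, hA0, hA⟩ : ∃ A : ℤ, 0 ≤ A ∧ ∀ q, |m q| ≤ A := by
    refine ⟨∑ q, |m q|, Finset.sum_nonneg fun _ _ => abs_nonneg _, fun q => ?_⟩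
    exact Finset.single_le_sum (f := fun q => |m q|) (fun _ _ => abs_nonneg _) (Finset.mem_univ q)
  obtain ⟨S, hS0, hS⟩ : ∃ S : ℤ, 0 ≤ S ∧ S = ((Fintype.card (ι × Fin d) : ℕ) : ℤ) :=
    ⟨_, by positivity, rfl⟩
  have hAS := mul_nonneg hA0 hS0
  -- the formula
  have key : ∀ x : ι → ℤ, (D : ℝ) * Int.fract (((∑ i, c i * x i : ℤ) : ℝ) * α) =
      lf m ((a₀ * ∑ i, c i * x i) % D - D * ((⌊lf m 0 (vec γ D x)⌋ + (a₀ * ∑ i, c i * x i) % D) / D))
        (vec γ D x) := by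
    intro x
    set s : ℤ := ∑ i, c i * x i with hs
    set r : ℤ := (a₀ * s) % D with hr
    set u : ℝ := lf m 0 (vec γ D x) with hu
    have e1 : u = D * ∑ q : ι × Fin d, ((c q.1 * a q.2 : ℤ) : ℝ) * Int.fract ((x q.1 : ℝ) * γ q.2 / D) := by
      rw [hu]
      unfold lf
      rw [Int.cast_zero, add_zero, Finset.mul_sum]
      apply Finset.sum_congr rfl
      intro q _
      simp only [hm]
      unfold vec fr
      push_cast; ring
    have e2 : (s : ℝ) * α = (a₀ * s : ℤ) / (D : ℝ) +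
        ∑ q : ι × Fin d, ((c q.1 * a q.2 : ℤ) : ℝ) * ((x q.1 : ℝ) * γ q.2 / D) := by
      have e3 : α = (a₀ + ∑ j, (a j : ℝ) * γ j) / D := by rw [← hα]; field_simp
      rw [e3, Fintype.sum_prod_type, hs]
      push_cast
      rw [mul_div_assoc', mul_add, add_div, Finset.mul_sum, Finset.sum_div]
      congr 1
      · ring
      · rw [Finset.sum_comm]
        apply Finset.sum_congr rfl
        intro j _
        rw [Finset.sum_mul, Finset.sum_div]
        apply Finset.sum_congr rfl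
        intro i _
        ring
    have e4 : Int.fract ((s : ℝ) * α) = Int.fract ((u + r) / D) := by
      rw [e2, Int.fract_eq_fract]
      refine ⟨(a₀ * s) / D + ∑ q : ι × Fin d, (c q.1 * a q.2) * ⌊(x q.1 : ℝ) * γ q.2 / D⌋, ?_⟩
      rw [e1]
      have e5 : ((a₀ * s : ℤ) : ℝ) = D * (((a₀ * s) / D : ℤ) : ℝ) + (r : ℝ) := by
        have := Int.mul_ediv_add_emod (a₀ * s) D
        rw [hr]
        exact_mod_cast this.symm
      rw [e5]
      have e6 : (D * ∑ q : ι × Fin d, ((c q.1 * a q.2 : ℤ) : ℝ) * Int.fract ((x q.1 : ℝ) * γ q.2 / D) + r) / (D : ℝ) =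
          ∑ q : ι × Fin d, ((c q.1 * a q.2 : ℤ) : ℝ) * Int.fract ((x q.1 : ℝ) * γ q.2 / D) + r / D := by
        field_simp
      have e7 : (D * (((a₀ * s) / D : ℤ) : ℝ) + (r : ℝ)) / D = (((a₀ * s) / D : ℤ) : ℝ) + r / D := by
        field_simp
      rw [e6, e7]
      have e8 : ∑ q : ι × Fin d, ((c q.1 * a q.2 : ℤ) : ℝ) * ((x q.1 : ℝ) * γ q.2 / D) =
          ∑ q : ι × Fin d, ((c q.1 * a q.2 : ℤ) : ℝ) * Int.fract ((x q.1 : ℝ) * γ q.2 / D) +
          ∑ q : ι × Fin d, ((c q.1 * a q.2 : ℤ) : ℝ) * (⌊(x q.1 : ℝ) * γ q.2 / D⌋ : ℝ) := by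
        rw [← Finset.sum_add_distrib]
        apply Finset.sum_congr rfl
        intro q _
        rw [← mul_add, Int.fract_add_floor]
      rw [e8]
      push_cast
      ring
    rw [e4, lf_const]
    have e9 : ⌊(u + r) / (D : ℝ)⌋ = (⌊u⌋ + r) / D := by
      rw [Int.floor_div_natCast, Int.floor_add_intCast]
    unfold Int.fract
    rw [e9, mul_sub]
    have : (D : ℝ) * ((u + r) / D) = u + r := by field_simp
    rw [this]
    push_cast
    ring
  -- bounds
  have hbound : ∀ x : ι → ℤ, |(a₀ * ∑ i, c i * x i) % D - D * ((⌊lf m 0 (vec γ D x)⌋ +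
      (a₀ * ∑ i, c i * x i) % D) / D)| ≤ A * S + D := by
    intro x
    have h1 := key x
    set K : ℤ := (a₀ * ∑ i, c i * x i) % D - D * ((⌊lf m 0 (vec γ D x)⌋ +
      (a₀ * ∑ i, c i * x i) % D) / D) with hK
    rw [lf_const] at h1
    have h2 := abs_le.mp (abs_lf_le m _ (vec_mem γ D x) A hA)
    have h3 := Int.fract_nonneg (((∑ i, c i * x i : ℤ) : ℝ) * α)
    have h4 := Int.fract_lt_one (((∑ i, c i * x i : ℤ) : ℝ) * α)
    have hD0 : (0 : ℝ) < D := by positivity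
    have h5 : (D : ℝ) * Int.fract (((∑ i, c i * x i : ℤ) : ℝ) * α) ≤ D := by nlinarith
    have h6 : 0 ≤ (D : ℝ) * Int.fract (((∑ i, c i * x i : ℤ) : ℝ) * α) := by positivity
    rw [abs_le]
    have hSr : ((Fintype.card (ι × Fin d) : ℕ) : ℝ) = (S : ℝ) := by rw [hS]; push_cast; rfl
    rw [hSr] at h2
    constructor
    · have : ((-(A * S + D) : ℤ) : ℝ) ≤ (K : ℝ) := by push_cast; linarith
      exact_mod_cast this
    · have : (K : ℝ) ≤ ((A * S + D : ℤ) : ℝ) := by push_cast; linarith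
      exact_mod_cast this
  refine ⟨A + A * S + D, A + A * S + 1, m, by positivity, by positivity,
    fun q => (hA q).trans (by linarith), fun x x' h => ?_⟩
  have h3 := floor_eq (vec_mem γ D x) h.2 m hA (by linarith) (by rw [← hS]; linarith)
  have h4 : (a₀ * ∑ i, c i * x i) % D = (a₀ * ∑ i, c i * x' i) % D := by
    have h5 : (∑ i, c i * x' i) ≡ (∑ i, c i * x i) [ZMOD D] := by
      rw [Int.modEq_iff_dvd, ← Finset.sum_sub_distrib]
      apply Finset.dvd_sum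
      intro i _
      rw [← mul_sub]
      exact (h.1 i).mul_left _
    exact (h5.mul_left a₀).symm
  refine ⟨_, (hbound x).trans (by linarith), key x, ?_⟩
  rw [key x', ← h3.1, ← h4]

/-- comparison of fractional parts of multiples of `α` is tame -/
theorem tame_lt {α : ℝ} {D : ℕ} (hD : 0 < D) (a₀ : ℤ) (a : Fin d → ℤ)
    (hα : (D : ℝ) * α = a₀ + ∑ j, (a j : ℝ) * γ j) (c c' : ι → ℤ) :
    Tame γ fun x => Int.fract (((∑ i, c i * x i : ℤ) : ℝ) * α) <
      Int.fract (((∑ i, c' i * x i : ℤ) : ℝ) * α) := by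
  obtain ⟨A₁, B₁, m₁, hA1, hB1, hm1, h1⟩ := frac_form (γ := γ) hD a₀ a hα c
  obtain ⟨A₂, B₂, m₂, hA2, hB2, hm2, h2⟩ := frac_form (γ := γ) hD a₀ a hα c'
  refine ⟨D, D, (A₁ + A₂ + B₁ + B₂).toNat, hD, hD, fun x x' h => ?_⟩
  have hcast : (((A₁ + A₂ + B₁ + B₂).toNat : ℕ) : ℤ) = A₁ + A₂ + B₁ + B₂ := by omega
  rw [hcast] at h
  obtain ⟨K₁, hK1, h3, h4⟩ := h1 x x' ⟨h.1, h.2.mono (by linarith)⟩
  obtain ⟨K₂, hK2, h5, h6⟩ := h2 x x' ⟨h.1, h.2.mono (by linarith)⟩
  have hD0 : (0 : ℝ) < D := by positivity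
  have e : ∀ z : ι × Fin d → ℝ, lf m₁ K₁ z < lf m₂ K₂ z ↔
      0 < lf (fun q => 1 * m₂ q + (-1) * m₁ q) (1 * K₂ + (-1) * K₁) z := by
    intro z
    rw [lf_comb]
    push_cast
    constructor <;> intro hh <;> linarith
  have h7 : ∀ y y' : ℝ, y < y' ↔ (D : ℝ) * y < D * y' := fun y y' => (mul_lt_mul_iff_right₀ hD0).symm
  show Int.fract (((∑ i, c i * x i : ℤ) : ℝ) * α) < Int.fract (((∑ i, c' i * x i : ℤ) : ℝ) * α) ↔
    Int.fract (((∑ i, c i * x' i : ℤ) : ℝ) * α) < Int.fract (((∑ i, c' i * x' i : ℤ) : ℝ) * α)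
  rw [h7, h3, h5, h7 (Int.fract (((∑ i, c i * x' i : ℤ) : ℝ) * α)), h4, h6, e, e]
  apply h.2
  · intro q
    have := abs_add_le (1 * m₂ q) ((-1) * m₁ q)
    rw [one_mul, neg_one_mul, abs_neg] at this
    rw [one_mul, neg_one_mul]
    linarith [hm1 q, hm2 q]
  · intro i hi
    exact absurd (Finset.mem_univ i) hi
  · have := abs_add_le (1 * K₂) ((-1) * K₁)
    rw [one_mul, neg_one_mul, abs_neg] at this
    rw [one_mul, neg_one_mul]
    linarith

end tame

end Pool.Agent.W5h91.Nip
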