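import Pool.Agent.W5h91.Nip.Form

/-! Every definable set is tame. -/

set_option autoImplicit false
set_option linter.all false

namespace Pool.Agent.W5h91.Nip

open Filter Topology Finset FirstOrder

/-- reindexing of the variables -/
def reix (β : Type) (n : ℕ) : β ⊕ Fin (n + 1) ≃ Option (β ⊕ Fin n) where
  toFun := Sum.elim (fun a => some (Sum.inl a))
    (fun i => Fin.lastCases (motive := fun _ => Option (β ⊕ Fin n)) none (fun j => some (Sum.inr j)) i)
  invFun := fun o => o.elim (Sum.inr (Fin.last n)) (Sum.elim Sum.inl (fun j => Sum.inr j.castSucc))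
  left_inv := by
    rintro (a | i)
    · rfl
    · refine Fin.lastCases ?_ (fun j => ?_) i <;> simp
  right_inv := by
    rintro (_ | (a | j)) <;> simp

theorem reix_ext {β : Type} {n : ℕ} (z : β ⊕ Fin n → ℤ) (y : ℤ) :
    (fun q => ext z y (reix β n q)) = Sum.elim (fun b => z (Sum.inl b))
      (Fin.snoc (fun i => z (Sum.inr i)) y : Fin (n + 1) → ℤ) := by
  funext q
  rcases q with a | i
  · rfl
  · refine Fin.lastCases ?_ (fun j => ?_) i
    · simp [reix, ext]
    · simp [reix, ext]

section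

variable {d : ℕ} {γ : Fin d → ℝ}

theorem Eqv.reindex {ι κ : Type} [Fintype ι] [Fintype κ] (e : ι ≃ κ) {N M : ℕ} {B : ℤ} {z z' : κ → ℤ}
    (h : Eqv γ N M B z z') : Eqv γ N M B (fun i => z (e i)) (fun i => z' (e i)) := by
  refine ⟨fun i => h.1 (e i), ?_⟩
  intro m k hm _ hk
  have key : ∀ z : κ → ℤ, lf m k (vec γ M fun i => z (e i)) =
      lf (fun q : κ × Fin d => m (e.symm q.1, q.2)) k (vec γ M z) := by
    intro z
    unfold lf
    congr 1
    rw [← Equiv.sum_comp (Equiv.prodCongr e (Equiv.refl (Fin d)))]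
    apply Finset.sum_congr rfl
    intro q _
    simp [vec]
  rw [key, key]
  exact h.2 _ k (fun q => hm _) (fun i hi => absurd (Finset.mem_univ i) hi) hk

end

section

variable {n : ℕ} {α : Fin n → ℝ}

theorem term_lin {ι : Type} [Fintype ι] (t : (cycLang n).Term ι) : ∃ c : ι → ℤ, ∀ x : ι → ℤ,
    (show ℤ from Language.Term.realize (M := ZC α) x t) = ∑ i, c i * x i := by
  classical
  induction t with
  | var i =>
    refine ⟨Pi.single i 1, fun x => ?_⟩
    rw [Finset.sum_eq_single i]
    · rw [Pi.single_eq_same, one_mul]; rfl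
    · intro b _ hb
      rw [Pi.single_eq_of_ne hb, zero_mul]
    · intro h; exact absurd (Finset.mem_univ i) h
  | func f ts ih =>
    cases f with
    | add =>
      obtain ⟨c, hc⟩ := ih 0
      obtain ⟨c', hc'⟩ := ih 1
      refine ⟨fun i => c i + c' i, fun x => ?_⟩
      simp only [add_mul, Finset.sum_add_distrib]
      rw [← hc x, ← hc' x]
      rfl

variable {d : ℕ} {γ : Fin d → ℝ}

/-- **formulas are tame** -/
theorem formula_tame (hd : 0 < d) (hγ : Indep γ) {D : ℕ} (hD : 0 < D) (a₀ : Fin n → ℤ)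
    (a : Fin n → Fin d → ℤ) (hα : ∀ i, (D : ℝ) * α i = a₀ i + ∑ j, (a i j : ℝ) * γ j)
    {β : Type} [Fintype β] {m : ℕ} (φ : (cycLang n).BoundedFormula β m) :
    Tame γ fun z : β ⊕ Fin m → ℤ => Language.BoundedFormula.Realize (M := ZC α) φ
      (fun b => z (Sum.inl b)) (fun i => z (Sum.inr i)) := by
  induction φ with
  | falsum => exact ⟨1, 1, 0, one_pos, one_pos, fun x x' _ => Iff.rfl⟩
  | @equal m t₁ t₂ =>
    obtain ⟨c₁, h1⟩ := term_lin (α := α) t₁
    obtain ⟨c₂, h2⟩ := term_lin (α := α) t₂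
    obtain ⟨N, M, B, hN, hM, h⟩ := tame_eq (γ := γ) hd hγ (fun i => c₁ i - c₂ i)
    refine ⟨N, M, B, hN, hM, fun x x' hx => ?_⟩
    have key : ∀ z : β ⊕ Fin m → ℤ, Language.BoundedFormula.Realize (M := ZC α)
        (Language.BoundedFormula.equal t₁ t₂) (fun b => z (Sum.inl b)) (fun i => z (Sum.inr i)) ↔
        ∑ i, (c₁ i - c₂ i) * z i = 0 := by
      intro z
      have e : (Sum.elim (fun b => z (Sum.inl b)) (fun i => z (Sum.inr i)) : β ⊕ Fin m → ZC α) = z := by
        funext q; rcases q with q | q <;> rfl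
      simp only [sub_mul, Finset.sum_sub_distrib, sub_eq_zero]
      rw [← h1 z, ← h2 z]
      show Language.Term.realize (M := ZC α) (Sum.elim (fun b => z (Sum.inl b)) (fun i => z (Sum.inr i))) t₁ =
        Language.Term.realize (M := ZC α) (Sum.elim (fun b => z (Sum.inl b)) (fun i => z (Sum.inr i))) t₂ ↔ _
      rw [e]
      exact Iff.rfl
    exact (key x).trans ((h x x' hx).trans (key x').symm)
  | @rel m l R ts =>
    cases R with
    | cyc i =>
      obtain ⟨c₀, h0⟩ := term_lin (α := α) (ts 0)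
      obtain ⟨c₁, h1⟩ := term_lin (α := α) (ts 1)
      obtain ⟨c₂, h2⟩ := term_lin (α := α) (ts 2)
      have h01 := tame_lt (γ := γ) hD (a₀ i) (a i) (hα i) c₀ c₁
      have h12 := tame_lt (γ := γ) hD (a₀ i) (a i) (hα i) c₁ c₂
      have h20 := tame_lt (γ := γ) hD (a₀ i) (a i) (hα i) c₂ c₀
      obtain ⟨N, M, B, hN, hM, h⟩ := (h01.and h12).or ((h12.and h20).or (h20.and h01))
      refine ⟨N, M, B, hN, hM, fun x x' hx => ?_⟩
      have key : ∀ z : β ⊕ Fin m → ℤ, Language.BoundedFormula.Realize (M := ZC α)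
          (Language.BoundedFormula.rel (CycRel.cyc i) ts) (fun b => z (Sum.inl b))
            (fun i => z (Sum.inr i)) ↔
          Cyc (α i) (∑ i, c₀ i * z i) (∑ i, c₁ i * z i) (∑ i, c₂ i * z i) := by
        intro z
        have e : (Sum.elim (fun b => z (Sum.inl b)) (fun i => z (Sum.inr i)) : β ⊕ Fin m → ZC α) = z := by
          funext q; rcases q with q | q <;> rfl
        rw [← h0 z, ← h1 z, ← h2 z]
        show Cyc (α i)
          (Language.Term.realize (M := ZC α) (Sum.elim (fun b => z (Sum.inl b)) (fun i => z (Sum.inr i))) (ts 0))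
          (Language.Term.realize (M := ZC α) (Sum.elim (fun b => z (Sum.inl b)) (fun i => z (Sum.inr i))) (ts 1))
          (Language.Term.realize (M := ZC α) (Sum.elim (fun b => z (Sum.inl b)) (fun i => z (Sum.inr i))) (ts 2)) ↔ _
        rw [e]
      exact (key x).trans ((h x x' hx).trans (key x').symm)
  | imp f₁ f₂ ih₁ ih₂ => exact ih₁.imp ih₂
  | @all m f ih =>
    obtain ⟨N, M, B, hN, hM, h⟩ := ih
    obtain ⟨N', M', B', hN', hM', hback⟩ := back (ι := β ⊕ Fin m) hγ M N hM hN B
    refine ⟨N', M', B', hN', hM', ?_⟩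
    have key : ∀ x x' : β ⊕ Fin m → ℤ, Eqv γ N' M' B' x x' →
        Language.BoundedFormula.Realize (M := ZC α) f.all (fun b => x (Sum.inl b)) (fun i => x (Sum.inr i)) →
        Language.BoundedFormula.Realize (M := ZC α) f.all (fun b => x' (Sum.inl b)) (fun i => x' (Sum.inr i)) := by
      intro x x' hx hr
      have main : ∀ y' : ℤ, Language.BoundedFormula.Realize (M := ZC α) f (fun b => x' (Sum.inl b))
          (Fin.snoc (α := fun _ => ℤ) (fun i => x' (Sum.inr i)) y') := by
        intro y'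
        obtain ⟨y, hy⟩ := hback x' x hx.symm y'
        have h1 := hy.reindex (reix β m)
        rw [reix_ext, reix_ext] at h1
        have h2 := h _ _ h1
        simp only [Sum.elim_inl, Sum.elim_inr] at h2
        exact h2.mpr (hr y)
      exact main
    exact fun x x' hx => ⟨key x x' hx, key x' x hx.symm⟩

end

end Pool.Agent.W5h91.Nip
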