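import Pool.Agent.TH109.CG.Kron

/-! Density of the points `(y γ_j / M)_j` modulo one, with `y` in a residue class. -/

set_option autoImplicit false
set_option linter.all false

namespace Pool.Agent.W5h91.Nip

open Filter Topology Finset

/-- `1` and the `γ j` are linearly independent over the rational numbers -/
def Indep {d : ℕ} (γ : Fin d → ℝ) : Prop :=
  ∀ (c : Fin d → ℤ) (k : ℤ), ∑ j, (c j : ℝ) * γ j = k → c = 0

theorem dense_line {d : ℕ} (b : Fin d → ℝ) (hb : ∀ n : Fin d → ℤ, ∑ i, (n i : ℝ) * b i = 0 → n = 0) :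
    Dense (Set.range (Pool.Agent.TH109.CG.ln b)) := by
  intro x
  have h1 := Pool.Agent.TH109.CG.kronecker b hb
    (fun x => Metric.infDist x (Set.range (Pool.Agent.TH109.CG.ln b)))
    (Metric.continuous_infDist_pt _) (fun x => Metric.infDist_nonneg)
    (fun t => Metric.infDist_zero_of_mem (Set.mem_range_self t)) x
  exact (Metric.mem_closure_iff_infDist_zero (Set.range_nonempty _)).mpr h1

/-- inhomogeneous approximation -/
theorem approx {d : ℕ} (θ : Fin d → ℝ) (hθ : Indep θ) (ζ : Fin d → ℝ) (ε : ℝ) (hε : 0 < ε) :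
    ∃ s : ℤ, ∀ j, ∃ k : ℤ, |(s : ℝ) * θ j - ζ j - k| < ε := by
  -- the line in the torus of dimension `d + 1`
  set b : Fin (d + 1) → ℝ := Fin.cons 1 θ with hb
  have hb1 : ∀ n : Fin (d + 1) → ℤ, ∑ i, (n i : ℝ) * b i = 0 → n = 0 := by
    intro n hn
    rw [Fin.sum_univ_succ] at hn
    simp only [hb, Fin.cons_zero, Fin.cons_succ, mul_one] at hn
    have h1 : ∑ j : Fin d, ((n j.succ : ℤ) : ℝ) * θ j = ((-(n 0) : ℤ) : ℝ) := by
      push_cast; linarith
    have h2 := hθ (fun j => n j.succ) (-(n 0)) h1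
    have h3 : n 0 = 0 := by
      have h4 : ∑ j : Fin d, ((n j.succ : ℤ) : ℝ) * θ j = 0 := by
        apply Finset.sum_eq_zero
        intro j _
        have := congrFun h2 j
        simp only [Pi.zero_apply] at this
        rw [this]; simp
      rw [h4] at h1
      have h5 : (((-(n 0) : ℤ)) : ℝ) = 0 := h1.symm
      have h6 : -(n 0) = 0 := by exact_mod_cast h5
      omega
    funext i
    refine Fin.cases h3 (fun j => ?_) i
    exact congrFun h2 j
  obtain ⟨C, hC0, hC⟩ : ∃ C : ℝ, 0 < C ∧ ∀ j, |θ j| ≤ C := by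
    refine ⟨1 + ∑ j, |θ j|, ?_, fun j => ?_⟩
    · have : 0 ≤ ∑ j, |θ j| := Finset.sum_nonneg fun _ _ => abs_nonneg _
      linarith
    · have : |θ j| ≤ ∑ j, |θ j| :=
        Finset.single_le_sum (f := fun j => |θ j|) (fun _ _ => abs_nonneg _) (Finset.mem_univ j)
      linarith
  set ε' : ℝ := ε / (1 + C) with hε'
  have hε0 : 0 < ε' := by positivity
  set x : UnitAddTorus (Fin (d + 1)) := fun i => ((Fin.cons 0 ζ : Fin (d + 1) → ℝ) i : UnitAddCircle)
    with hx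
  obtain ⟨z, ⟨t, rfl⟩, hz⟩ := Metric.mem_closure_iff.mp (dense_line b hb1 x) ε' hε0
  have hz' : ∀ i, ‖(((Fin.cons 0 ζ : Fin (d + 1) → ℝ) i : ℝ) : UnitAddCircle) - ((t * b i : ℝ) : UnitAddCircle)‖ < ε' := by
    intro i
    have h1 := (dist_pi_lt_iff hε0).mp hz i
    rw [dist_eq_norm] at h1
    exact h1
  have hz2 : ∀ i, ∃ k : ℤ, |((Fin.cons 0 ζ : Fin (d + 1) → ℝ) i - t * b i) - k| < ε' := by
    intro i
    have h1 := hz' i
    rw [← AddCircle.coe_sub, UnitAddCircle.norm_eq] at h1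
    exact ⟨_, h1⟩
  obtain ⟨k0, hk0⟩ := hz2 0
  simp only [hb, Fin.cons_zero, mul_one, zero_sub] at hk0
  refine ⟨-k0, fun j => ?_⟩
  obtain ⟨k, hk⟩ := hz2 j.succ
  simp only [hb, Fin.cons_succ] at hk
  refine ⟨-k, ?_⟩
  have e : ((-k0 : ℤ) : ℝ) * θ j - ζ j - ((-k : ℤ) : ℝ) =
      -((ζ j - t * θ j) - k) + (-t - k0) * θ j := by
    push_cast; ring
  rw [e]
  calc |-((ζ j - t * θ j) - k) + (-t - k0) * θ j| ≤ |-((ζ j - t * θ j) - k)| + |(-t - k0) * θ j| :=
        abs_add_le _ _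
    _ = |(ζ j - t * θ j) - k| + |(-t - k0)| * |θ j| := by rw [abs_neg, abs_mul]
    _ < ε' + ε' * C := by
        have h1 : |(-t - k0 : ℝ)| * |θ j| ≤ ε' * C :=
          mul_le_mul hk0.le (hC j) (abs_nonneg _) hε0.le
        linarith
    _ = ε := by rw [hε']; field_simp

/-- the fractional parts -/
noncomputable def fr {d : ℕ} (γ : Fin d → ℝ) (M : ℕ) (y : ℤ) (j : Fin d) : ℝ :=
  Int.fract ((y : ℝ) * γ j / M)

/-- density -/
theorem dense_fr {d : ℕ} {γ : Fin d → ℝ} (hγ : Indep γ) {M N : ℕ} (hM : 0 < M) (hN : 0 < N) (y : ℤ)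
    (η : Fin d → ℝ) (hη : ∀ j, 0 < η j ∧ η j < 1) (U : Set (Fin d → ℝ)) (hU : U ∈ 𝓝 η) :
    ∃ y' : ℤ, (N : ℤ) ∣ y' - y ∧ fr γ M y' ∈ U := by
  obtain ⟨ε, hε, hball⟩ := Metric.mem_nhds_iff.mp hU
  -- small radius
  obtain ⟨δ, hδ0, hδε, hδ⟩ : ∃ δ : ℝ, 0 < δ ∧ δ ≤ ε ∧ ∀ j, δ ≤ η j ∧ δ ≤ 1 - η j := by
    have : ∀ s : Finset (Fin d), ∃ δ : ℝ, 0 < δ ∧ δ ≤ ε ∧ ∀ j ∈ s, δ ≤ η j ∧ δ ≤ 1 - η j := by
      intro s
      induction s using Finset.induction_on with
      | empty => exact ⟨ε, hε, le_rfl, fun j hj => absurd hj (Finset.notMem_empty j)⟩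
      | insert a s _ ih =>
        obtain ⟨δ, h1, h2, h3⟩ := ih
        refine ⟨min δ (min (η a) (1 - η a)), lt_min h1 (lt_min (hη a).1 (by linarith [(hη a).2])),
          (min_le_left _ _).trans h2, ?_⟩
        intro j hj
        rcases Finset.mem_insert.mp hj with rfl | hj
        · exact ⟨(min_le_right _ _).trans (min_le_left _ _), (min_le_right _ _).trans (min_le_right _ _)⟩
        · exact ⟨(min_le_left _ _).trans (h3 j hj).1, (min_le_left _ _).trans (h3 j hj).2⟩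
    obtain ⟨δ, h1, h2, h3⟩ := this Finset.univ
    exact ⟨δ, h1, h2, fun j => h3 j (Finset.mem_univ j)⟩
  have hM' : (M : ℝ) ≠ 0 := by positivity
  have hN' : (N : ℝ) ≠ 0 := by positivity
  have hθ : Indep fun j => (N : ℝ) * γ j / M := by
    intro c k hk
    have h1 : ∑ j, (((N : ℤ) * c j : ℤ) : ℝ) * γ j = (((M : ℤ) * k : ℤ) : ℝ) := by
      push_cast
      rw [← hk, Finset.mul_sum]
      apply Finset.sum_congr rfl
      intro j _
      field_simp
    have h2 := hγ _ _ h1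
    funext j
    have h3 := congrFun h2 j
    simp only [Pi.zero_apply] at h3
    rcases mul_eq_zero.mp h3 with h4 | h4
    · exact absurd h4 (by exact_mod_cast hN.ne')
    · exact h4
  obtain ⟨s, hs⟩ := approx _ hθ (fun j => η j - (y : ℝ) * γ j / M) δ hδ0
  refine ⟨y + N * s, ⟨s, by ring⟩, hball ?_⟩
  rw [Metric.mem_ball, dist_pi_lt_iff hε]
  intro j
  obtain ⟨k, hk⟩ := hs j
  have e : ((y + N * s : ℤ) : ℝ) * γ j / M =
      ((s : ℝ) * ((N : ℝ) * γ j / M) - (η j - (y : ℝ) * γ j / M) - k) + η j + k := by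
    push_cast; ring
  unfold fr
  rw [e, Int.fract_add_intCast]
  set w : ℝ := (s : ℝ) * ((N : ℝ) * γ j / M) - (η j - (y : ℝ) * γ j / M) - k with hw
  have h1 := abs_lt.mp hk
  have h2 := hδ j
  rw [Int.fract_eq_self.mpr ⟨by linarith, by linarith⟩, Real.dist_eq]
  have : w + η j - η j = w := by ring
  rw [this]
  exact lt_of_lt_of_le hk hδε

end Pool.Agent.W5h91.Nip
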