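import Pool.Agent.W5h91.Nip.Kron

/-! Back and forth for vectors of real numbers and bounded integral affine forms. -/

set_option autoImplicit false
set_option linter.all false

namespace Pool.Agent.W5h91.Nip

open Filter Topology Finset

/-- one step extension in a dense linear order -/
theorem dlo {Θ : Type} [Finite Θ] (t t' : Θ → ℝ) (h : ∀ a b, t a < t b ↔ t' a < t' b) (η : ℝ) :
    ∃ η' : ℝ, ∀ a, (t a < η ↔ t' a < η') ∧ (η < t a ↔ η' < t' a) := by
  classical
  haveI := Fintype.ofFinite Θ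
  by_cases hex : ∃ a, t a = η
  · obtain ⟨a, ha⟩ := hex
    refine ⟨t' a, fun b => ?_⟩
    rw [← ha]
    exact ⟨h b a, h a b⟩
  · push Not at hex
    obtain ⟨η', h1, h2⟩ := Order.exists_between_finsets
      ((Finset.univ.filter fun a => t a < η).image t') ((Finset.univ.filter fun a => η < t a).image t')
      (by
        intro x hx y hy
        obtain ⟨a, ha, rfl⟩ := Finset.mem_image.mp hx
        obtain ⟨b, hb, rfl⟩ := Finset.mem_image.mp hy
        rw [Finset.mem_filter] at ha hb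
        exact (h a b).mp (ha.2.trans hb.2))
    have h1' : ∀ a, t a < η → t' a < η' := fun a ha =>
      h1 _ (Finset.mem_image_of_mem _ (Finset.mem_filter.mpr ⟨Finset.mem_univ _, ha⟩))
    have h2' : ∀ a, η < t a → η' < t' a := fun a ha =>
      h2 _ (Finset.mem_image_of_mem _ (Finset.mem_filter.mpr ⟨Finset.mem_univ _, ha⟩))
    refine ⟨η', fun a => ?_⟩
    rcases lt_or_gt_of_ne (hex a) with hlt | hgt
    · exact ⟨⟨fun _ => h1' a hlt, fun _ => hlt⟩,
        ⟨fun hh => absurd hh (not_lt.mpr hlt.le), fun hh => absurd (h1' a hlt) (not_lt.mpr hh.le)⟩⟩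
    · exact ⟨⟨fun hh => absurd hh (not_lt.mpr hgt.le), fun hh => absurd (h2' a hgt) (not_lt.mpr hh.le)⟩,
        ⟨fun _ => h2' a hgt, fun _ => hgt⟩⟩

variable {σ : Type} [Fintype σ]

/-- the value of an affine form -/
noncomputable def lf (m : σ → ℤ) (k : ℤ) (ζ : σ → ℝ) : ℝ := ∑ i, (m i : ℝ) * ζ i + k

/-- all affine forms with integral coefficients of absolute value at most `B` and with the variables
in `s` have the same signs at `ζ` and `ζ'` -/
def REqv (s : Finset σ) (B : ℤ) (ζ ζ' : σ → ℝ) : Prop :=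
  ∀ (m : σ → ℤ) (k : ℤ), (∀ i, |m i| ≤ B) → (∀ i, i ∉ s → m i = 0) → |k| ≤ B →
    (0 < lf m k ζ ↔ 0 < lf m k ζ')

theorem lf_neg (m : σ → ℤ) (k : ℤ) (ζ : σ → ℝ) : lf (-m) (-k) ζ = - lf m k ζ := by
  unfold lf
  rw [neg_add, ← Finset.sum_neg_distrib]
  congr 1
  · apply Finset.sum_congr rfl
    intro i _
    simp only [Pi.neg_apply]
    push_cast; ring
  · push_cast; ring

theorem lf_comb (a b : ℤ) (m m' : σ → ℤ) (k k' : ℤ) (ζ : σ → ℝ) :
    lf (fun i => a * m i + b * m' i) (a * k + b * k') ζ = a * lf m k ζ + b * lf m' k' ζ := by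
  unfold lf
  rw [mul_add, mul_add, Finset.mul_sum, Finset.mul_sum]
  have : ∑ i, (((a * m i + b * m' i : ℤ)) : ℝ) * ζ i =
      ∑ i, (a : ℝ) * ((m i : ℝ) * ζ i) + ∑ i, (b : ℝ) * ((m' i : ℝ) * ζ i) := by
    rw [← Finset.sum_add_distrib]
    apply Finset.sum_congr rfl
    intro i _
    push_cast; ring
  rw [this]
  push_cast; ring

theorem REqv.mono {s : Finset σ} {B B' : ℤ} (hB : B ≤ B') {ζ ζ' : σ → ℝ} (h : REqv s B' ζ ζ') :
    REqv s B ζ ζ' := fun m k h1 h2 h3 => h m k (fun i => (h1 i).trans hB) h2 (h3.trans hB)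

theorem REqv.congr_right {s : Finset σ} {B : ℤ} {ζ ζ' ζ'' : σ → ℝ} (h : REqv s B ζ ζ')
    (he : ∀ i ∈ s, ζ'' i = ζ' i) : REqv s B ζ ζ'' := by
  intro m k h1 h2 h3
  rw [h m k h1 h2 h3]
  have : lf m k ζ' = lf m k ζ'' := by
    unfold lf
    congr 1
    apply Finset.sum_congr rfl
    intro i _
    by_cases hi : i ∈ s
    · rw [he i hi]
    · rw [h2 i hi]; simp
  rw [this]

/-- one step extension -/
theorem step [DecidableEq σ] (s : Finset σ) (B : ℤ) (hB : 0 ≤ B) (a : σ) (ha : a ∉ s) (ζ ζ' : σ → ℝ)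
    (h : REqv s (2 * B ^ 2) ζ ζ') :
    ∃ t : ℝ, REqv (insert a s) B ζ (Function.update ζ' a t) := by
  classical
  -- the finite set of critical points
  set V := {v : ℤ × (σ → ℤ) × ℤ // v ∈ (Finset.Icc 1 B) ×ˢ
    ((Fintype.piFinset fun _ : σ => Finset.Icc (-B) B) ×ˢ Finset.Icc (-B) B) ∧ ∀ i, i ∉ s → v.2.1 i = 0}
    with hV
  haveI : Finite V := by
    apply Finite.of_injective
      (fun v : V => (⟨v.1, v.2.1⟩ : {v : ℤ × (σ → ℤ) × ℤ // v ∈ (Finset.Icc 1 B) ×ˢ
    ((Fintype.piFinset fun _ : σ => Finset.Icc (-B) B) ×ˢ Finset.Icc (-B) B)}))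
    intro v w hvw
    apply Subtype.ext
    have h1 := congrArg (fun x => x.1) hvw
    exact h1
  set T : (σ → ℝ) → V → ℝ := fun z v => - lf v.1.2.1 v.1.2.2 z / (v.1.1 : ℝ) with hT
  have hpos : ∀ v : V, (0 : ℝ) < (v.1.1 : ℝ) := by
    intro v
    have h1 := v.2.1
    rw [Finset.mem_product, Finset.mem_Icc] at h1
    exact_mod_cast lt_of_lt_of_le zero_lt_one h1.1.1
  have key : ∀ v w : V, T ζ v < T ζ w ↔ T ζ' v < T ζ' w := by
    intro v w
    have hv := v.2.1
    have hw := w.2.1
    rw [Finset.mem_product, Finset.mem_product, Finset.mem_Icc, Finset.mem_Icc,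
      Fintype.mem_piFinset] at hv hw
    have e : ∀ z : σ → ℝ, T z v < T z w ↔
        0 < lf (fun i => w.1.1 * v.1.2.1 i + (-v.1.1) * w.1.2.1 i)
          (w.1.1 * v.1.2.2 + (-v.1.1) * w.1.2.2) z := by
      intro z
      rw [lf_comb, hT]
      simp only
      rw [div_lt_div_iff₀ (hpos v) (hpos w)]
      push_cast
      constructor <;> intro hh <;> nlinarith
    rw [e ζ, e ζ']
    have hbound : ∀ x y x' y' : ℤ, 0 ≤ x → x ≤ B → 0 ≤ y → y ≤ B → |x'| ≤ B → |y'| ≤ B →
        |x * x' + (-y) * y'| ≤ 2 * B ^ 2 := by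
      intro x y x' y' hx0 hx hy0 hy hx' hy'
      calc |x * x' + (-y) * y'| ≤ |x * x'| + |(-y) * y'| := abs_add_le _ _
        _ = x * |x'| + y * |y'| := by rw [abs_mul, abs_mul, abs_neg, abs_of_nonneg hx0, abs_of_nonneg hy0]
        _ ≤ B * B + B * B := by
            apply add_le_add
            · exact mul_le_mul hx hx' (abs_nonneg _) hB
            · exact mul_le_mul hy hy' (abs_nonneg _) hB
        _ = 2 * B ^ 2 := by ring
    apply h
    · intro i
      have h1 := hv.2.1 i
      have h2 := hw.2.1 i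
      rw [Finset.mem_Icc, ← abs_le] at h1 h2
      exact hbound _ _ _ _ (by omega) hw.1.2 (by omega) hv.1.2 h1 h2
    · intro i hi
      rw [v.2.2 i hi, w.2.2 i hi]; ring
    · have h1 := hv.2.2
      have h2 := hw.2.2
      rw [← abs_le] at h1 h2
      exact hbound _ _ _ _ (by omega) hw.1.2 (by omega) hv.1.2 h1 h2
  obtain ⟨t, ht⟩ := dlo (T ζ) (T ζ') key (ζ a)
  refine ⟨t, ?_⟩
  -- forms with a positive coefficient of `a`
  have hupd : ∀ (m : σ → ℤ) (k : ℤ) (z : σ → ℝ) (y : ℝ), lf m k (Function.update z a y) =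
      (m a : ℝ) * y + lf (Function.update m a 0) k z := by
    intro m k z y
    unfold lf
    rw [← Finset.add_sum_erase _ _ (Finset.mem_univ a),
      ← Finset.add_sum_erase _ (fun i => ((Function.update m a 0 i : ℤ) : ℝ) * z i) (Finset.mem_univ a)]
    rw [Function.update_self, Function.update_self]
    have : ∑ x ∈ Finset.univ.erase a, (m x : ℝ) * Function.update z a y x =
        ∑ x ∈ Finset.univ.erase a, ((Function.update m a 0 x : ℤ) : ℝ) * z x := by
      apply Finset.sum_congr rfl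
      intro i hi
      rw [Function.update_of_ne (Finset.ne_of_mem_erase hi), Function.update_of_ne (Finset.ne_of_mem_erase hi)]
    rw [this]
    push_cast; ring
  have hself : ∀ (m : σ → ℤ) (k : ℤ), lf m k ζ = (m a : ℝ) * ζ a + lf (Function.update m a 0) k ζ := by
    intro m k
    have := hupd m k ζ (ζ a)
    rwa [Function.update_eq_self] at this
  have hmain : ∀ (m : σ → ℤ) (k : ℤ), (∀ i, |m i| ≤ B) → (∀ i, i ∉ insert a s → m i = 0) → |k| ≤ B →
      0 < m a → (0 < lf m k ζ ↔ 0 < lf m k (Function.update ζ' a t)) ∧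
        (lf m k ζ < 0 ↔ lf m k (Function.update ζ' a t) < 0) := by
    intro m k h1 h2 h3 hma
    rw [hself, hupd]
    have hv : (m a, Function.update m a 0, k) ∈ (Finset.Icc 1 B) ×ˢ
        ((Fintype.piFinset fun _ : σ => Finset.Icc (-B) B) ×ˢ Finset.Icc (-B) B) := by
      rw [Finset.mem_product, Finset.mem_product, Finset.mem_Icc, Finset.mem_Icc, Fintype.mem_piFinset]
      refine ⟨⟨hma, (abs_le.mp (h1 a)).2⟩, fun i => ?_, abs_le.mp h3⟩
      rw [Finset.mem_Icc]
      by_cases hi : i = a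
      · rw [hi]
        simp only [Function.update_self]
        omega
      · simp only [Function.update_of_ne hi]
        exact abs_le.mp (h1 i)
    have hv2 : ∀ i, i ∉ s → Function.update m a 0 i = 0 := by
      intro i hi
      by_cases hia : i = a
      · rw [hia, Function.update_self]
      · rw [Function.update_of_ne hia]
        exact h2 i (by rw [Finset.mem_insert]; tauto)
    have h4 := ht ⟨(m a, Function.update m a 0, k), hv, hv2⟩
    simp only [hT] at h4
    have hma' : (0 : ℝ) < m a := by exact_mod_cast hma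
    have e1 : ∀ z y : ℝ, - z / (m a : ℝ) < y ↔ 0 < (m a : ℝ) * y + z := by
      intro z y
      rw [div_lt_iff₀ hma']
      constructor <;> intro hh <;> linarith
    have e2 : ∀ z y : ℝ, y < - z / (m a : ℝ) ↔ (m a : ℝ) * y + z < 0 := by
      intro z y
      rw [lt_div_iff₀ hma']
      constructor <;> intro hh <;> linarith
    rw [e1, e1, e2, e2] at h4
    exact h4
  intro m k h1 h2 h3
  rcases lt_trichotomy (m a) 0 with hneg | hzero | hpos'
  · have h4 := (hmain (-m) (-k) (fun i => by rw [Pi.neg_apply, abs_neg]; exact h1 i)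
      (fun i hi => by rw [Pi.neg_apply, h2 i hi, neg_zero]) (by rw [abs_neg]; exact h3)
      (by rw [Pi.neg_apply]; omega)).2
    rw [lf_neg, lf_neg, neg_lt_zero, neg_lt_zero] at h4
    exact h4
  · have h4 : Function.update m a 0 = m := by
      rw [← hzero, Function.update_eq_self]
    rw [hself, hupd, hzero, h4]
    simp only [Int.cast_zero, zero_mul, zero_add]
    have hBB : B ≤ 2 * B ^ 2 := by nlinarith
    refine h m k (fun i => (h1 i).trans hBB) (fun i hi => ?_) (h3.trans hBB)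
    by_cases hia : i = a
    · rw [hia, hzero]
    · exact h2 i (by rw [Finset.mem_insert]; tauto)
  · exact (hmain m k h1 h2 h3 hpos').1

/-- extension by several coordinates -/
theorem block [DecidableEq σ] (s t : Finset σ) (hst : Disjoint s t) (B : ℤ) (hB : 0 ≤ B) :
    ∃ B' : ℤ, 0 ≤ B' ∧ ∀ ζ ζ' : σ → ℝ, REqv s B' ζ ζ' →
      ∃ ζ'' : σ → ℝ, (∀ i, i ∉ t → ζ'' i = ζ' i) ∧ REqv (s ∪ t) B ζ ζ'' := by
  induction t using Finset.induction_on generalizing B with
  | empty =>
    refine ⟨B, hB, fun ζ ζ' h => ⟨ζ', fun i _ => rfl, ?_⟩⟩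
    rw [Finset.union_empty]
    exact h
  | insert a t hat ih =>
    rw [Finset.disjoint_insert_right] at hst
    obtain ⟨B', hB', h⟩ := ih hst.2 (2 * B ^ 2) (by positivity)
    refine ⟨B', hB', fun ζ ζ' hz => ?_⟩
    obtain ⟨z1, h1, h2⟩ := h ζ ζ' hz
    obtain ⟨y, hy⟩ := step (s ∪ t) B hB a (by rw [Finset.mem_union]; tauto) ζ z1 h2
    refine ⟨Function.update z1 a y, ?_, ?_⟩
    · intro i hi
      rw [Finset.mem_insert, not_or] at hi
      rw [Function.update_of_ne hi.1]
      exact h1 i hi.2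
    · have e : s ∪ insert a t = insert a (s ∪ t) := by
        rw [Finset.union_insert]
      rw [e]
      exact hy

end Pool.Agent.W5h91.Nip
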