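import Pool.Agent.W5h91.Nip.Order

/-! The back and forth property for tuples of integers. -/

set_option autoImplicit false
set_option linter.all false

namespace Pool.Agent.W5h91.Nip

open Filter Topology Finset

section transfer

variable {σ τ : Type} [Fintype σ] [Fintype τ]

theorem lf_const (m : σ → ℤ) (k : ℤ) (ζ : σ → ℝ) : lf m k ζ = lf m 0 ζ + k := by
  unfold lf
  push_cast; ring

theorem abs_lf_le (m : σ → ℤ) (ζ : σ → ℝ) (hζ : ∀ i, 0 ≤ ζ i ∧ ζ i < 1) (A : ℤ) (hm : ∀ i, |m i| ≤ A) :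
    |lf m 0 ζ| ≤ A * Fintype.card σ := by
  unfold lf
  rw [Int.cast_zero, add_zero]
  refine (Finset.abs_sum_le_sum_abs _ _).trans ?_
  have h1 : ∀ i ∈ (Finset.univ : Finset σ), |(m i : ℝ) * ζ i| ≤ (A : ℝ) := by
    intro i _
    rw [abs_mul, abs_of_nonneg (hζ i).1]
    have h2 : |(m i : ℝ)| ≤ (A : ℝ) := by exact_mod_cast hm i
    have h3 := abs_nonneg (m i : ℝ)
    nlinarith [hζ i]
  refine (Finset.sum_le_sum h1).trans ?_
  rw [Finset.sum_const, nsmul_eq_mul, Finset.card_univ]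
  linarith

/-- the integral parts of forms are determined -/
theorem floor_eq {ζ ζ' : σ → ℝ} (hζ : ∀ i, 0 ≤ ζ i ∧ ζ i < 1) {A B' : ℤ} (h : REqv Finset.univ B' ζ ζ')
    (m : σ → ℤ) (hm : ∀ i, |m i| ≤ A) (hA : A ≤ B') (hB : A * Fintype.card σ + 1 ≤ B') :
    ⌊lf m 0 ζ⌋ = ⌊lf m 0 ζ'⌋ ∧ |⌊lf m 0 ζ⌋| ≤ A * Fintype.card σ := by
  have h1 := abs_le.mp (abs_lf_le m ζ hζ A hm)
  obtain ⟨n, hn⟩ : ∃ n, n = ⌊lf m 0 ζ⌋ := ⟨_, rfl⟩
  have h2 := Int.floor_le (lf m 0 ζ)
  have h3 := Int.lt_floor_add_one (lf m 0 ζ)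
  rw [← hn] at h2 h3
  have h4 : |n| ≤ A * Fintype.card σ := by
    rw [abs_le]
    constructor
    · have : ((-(A * Fintype.card σ) - 1 : ℤ) : ℝ) < n := by push_cast; linarith
      have h5 : -(A * Fintype.card σ) - 1 < n := by exact_mod_cast this
      omega
    · have : (n : ℝ) ≤ ((A * Fintype.card σ : ℤ) : ℝ) := by push_cast; linarith
      exact_mod_cast this
  have h5 := abs_le.mp h4
  rw [← hn]
  refine ⟨?_, h4⟩
  symm
  rw [Int.floor_eq_iff]
  have hneg : ∀ (k : ℤ) (z : σ → ℝ), lf (-m) k z = k - lf m 0 z := by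
    intro k z
    have := lf_neg m (-k) z
    rw [neg_neg, lf_const m (-k)] at this
    rw [this]; push_cast; ring
  have hnm : ∀ i, |(-m) i| ≤ B' := fun i => by rw [Pi.neg_apply, abs_neg]; exact (hm i).trans hA
  have h6 := h (-m) n hnm (fun i hi => absurd (Finset.mem_univ i) hi) (by omega)
  have h7 := h (-m) (n + 1) hnm (fun i hi => absurd (Finset.mem_univ i) hi)
    (by rw [abs_le]; constructor <;> omega)
  rw [hneg, hneg] at h6 h7
  push_cast at h6 h7
  constructor
  · by_contra hcon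
    push Not at hcon
    have := h6.mpr (by linarith)
    linarith
  · have := h7.mp (by linarith)
    linarith

/-- **transfer**: coordinates which are fractional parts of forms -/
theorem transfer (A : ℤ) (hA : 0 ≤ A) (B : ℤ) (hB : 0 ≤ B) : ∃ B' : ℤ, 0 ≤ B' ∧
    ∀ (ζ ζ' : σ → ℝ) (ω ω' : τ → ℝ) (a : τ → σ → ℤ), (∀ i, 0 ≤ ζ i ∧ ζ i < 1) →
      (∀ t i, |a t i| ≤ A) → (∀ t, ω t = Int.fract (lf (a t) 0 ζ)) →
      (∀ t, ω' t = Int.fract (lf (a t) 0 ζ')) → REqv Finset.univ B' ζ ζ' →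
      REqv Finset.univ B ω ω' := by
  classical
  set T : ℤ := ((Fintype.card τ : ℕ) : ℤ) with hT
  set S : ℤ := ((Fintype.card σ : ℕ) : ℤ) with hS
  have hT0 : 0 ≤ T := by positivity
  have hS0 : 0 ≤ S := by positivity
  refine ⟨A + (A * S + 1) + T * (B * A) + (B + T * (B * (A * S))), by positivity, ?_⟩
  intro ζ ζ' ω ω' a hζ ha hω hω' h
  have hfl : ∀ t, ⌊lf (a t) 0 ζ⌋ = ⌊lf (a t) 0 ζ'⌋ ∧ |⌊lf (a t) 0 ζ⌋| ≤ A * S := fun t =>
    floor_eq hζ h (a t) (ha t)
      (by nlinarith [mul_nonneg hA hS0, mul_nonneg hT0 (mul_nonneg hB hA), mul_nonneg hT0 (mul_nonneg hB (mul_nonneg hA hS0))])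
      (by nlinarith [mul_nonneg hA hS0, mul_nonneg hT0 (mul_nonneg hB hA), mul_nonneg hT0 (mul_nonneg hB (mul_nonneg hA hS0))])
  intro m k hm _ hk
  have key : ∀ (z : σ → ℝ) (o : τ → ℝ), (∀ t, o t = Int.fract (lf (a t) 0 z)) →
      lf m k o = lf (fun s => ∑ t, m t * a t s) (k - ∑ t, m t * ⌊lf (a t) 0 z⌋) z := by
    intro z o ho
    unfold lf at *
    simp only [ho, Int.fract, Int.cast_zero, add_zero]
    push_cast
    simp only [mul_sub, Finset.sum_sub_distrib, Finset.sum_mul, Finset.mul_sum]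
    rw [Finset.sum_comm]
    have e : ∑ y, ∑ x, (m x : ℝ) * (a x y) * z y = ∑ y, ∑ x, (m x : ℝ) * ((a x y) * z y) := by
      apply Finset.sum_congr rfl; intro y _
      apply Finset.sum_congr rfl; intro x _
      ring
    rw [e]
    ring
  rw [key ζ ω hω, key ζ' ω' hω']
  have e : (∑ t, m t * ⌊lf (a t) 0 ζ⌋) = ∑ t, m t * ⌊lf (a t) 0 ζ'⌋ := by
    apply Finset.sum_congr rfl; intro t _; rw [(hfl t).1]
  rw [← e]
  have hb1 : ∀ s, |∑ t, m t * a t s| ≤ T * (B * A) := by
    intro s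
    refine (Finset.abs_sum_le_sum_abs _ _).trans ?_
    refine (Finset.sum_le_sum (g := fun _ => B * A) fun t _ => ?_).trans ?_
    · rw [abs_mul]
      exact mul_le_mul (hm t) (ha t s) (abs_nonneg _) hB
    · rw [Finset.sum_const, nsmul_eq_mul, Finset.card_univ]
  have hb2 : |∑ t, m t * ⌊lf (a t) 0 ζ⌋| ≤ T * (B * (A * S)) := by
    refine (Finset.abs_sum_le_sum_abs _ _).trans ?_
    refine (Finset.sum_le_sum (g := fun _ => B * (A * S)) fun t _ => ?_).trans ?_
    · rw [abs_mul]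
      exact mul_le_mul (hm t) (hfl t).2 (abs_nonneg _) hB
    · rw [Finset.sum_const, nsmul_eq_mul, Finset.card_univ]
  have hAS := mul_nonneg hA hS0
  have hTBA := mul_nonneg hT0 (mul_nonneg hB hA)
  have hTBAS := mul_nonneg hT0 (mul_nonneg hB (mul_nonneg hA hS0))
  apply h
  · intro s
    exact (hb1 s).trans (by linarith)
  · intro i hi
    exact absurd (Finset.mem_univ i) hi
  · refine (abs_sub _ _).trans ?_
    linarith

end transfer

section bf

variable {d : ℕ} (γ : Fin d → ℝ)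

/-- the vector of fractional parts -/
noncomputable def vec {ι : Type} (M : ℕ) (x : ι → ℤ) : ι × Fin d → ℝ := fun q => fr γ M (x q.1) q.2

theorem vec_mem {ι : Type} (M : ℕ) (x : ι → ℤ) (q : ι × Fin d) : 0 ≤ vec γ M x q ∧ vec γ M x q < 1 :=
  ⟨Int.fract_nonneg _, Int.fract_lt_one _⟩

/-- two tuples of integers are equivalent: congruent modulo `N`, and the bounded forms in the fractional
parts have the same signs -/
def Eqv {ι : Type} [Fintype ι] (N M : ℕ) (B : ℤ) (x x' : ι → ℤ) : Prop :=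
  (∀ i, (N : ℤ) ∣ x i - x' i) ∧ REqv Finset.univ B (vec γ M x) (vec γ M x')

/-- an additional coordinate -/
def ext {ι : Type} (x : ι → ℤ) (y : ℤ) : Option ι → ℤ := fun o => o.elim y x

variable {γ}

theorem fract_sum {κ : Type} (s : Finset κ) (a : κ → ℤ) (u : κ → ℝ) :
    Int.fract (∑ i ∈ s, (a i : ℝ) * u i) = Int.fract (∑ i ∈ s, (a i : ℝ) * Int.fract (u i)) := by
  rw [Int.fract_eq_fract]
  refine ⟨∑ i ∈ s, a i * ⌊u i⌋, ?_⟩
  push_cast
  rw [← Finset.sum_sub_distrib]
  apply Finset.sum_congr rfl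
  intro i _
  have := Int.self_sub_floor (u i)
  rw [← this]; ring

/-- refining `M` -/
theorem Eqv.refine {ι : Type} [Fintype ι] (M Q : ℕ) (hQ : 0 < Q) (B : ℤ) (hB : 0 ≤ B) :
    ∃ B' : ℤ, 0 ≤ B' ∧ ∀ x x' : ι → ℤ, REqv Finset.univ B' (vec γ (M * Q) x) (vec γ (M * Q) x') →
      REqv Finset.univ B (vec γ M x) (vec γ M x') := by
  classical
  obtain ⟨B', hB', h⟩ := transfer (σ := ι × Fin d) (τ := ι × Fin d) (Q : ℤ) (by positivity) B hB
  refine ⟨B', hB', fun x x' hx => ?_⟩
  have key : ∀ (x : ι → ℤ) (q : ι × Fin d), vec γ M x q =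
      Int.fract (lf (Pi.single q (Q : ℤ)) 0 (vec γ (M * Q) x)) := by
    intro x q
    have e1 : lf (Pi.single q (Q : ℤ)) 0 (vec γ (M * Q) x) = (Q : ℝ) * vec γ (M * Q) x q := by
      unfold lf
      rw [Finset.sum_eq_single q]
      · simp
      · intro b _ hb
        rw [Pi.single_eq_of_ne hb]; simp
      · intro hq; exact absurd (Finset.mem_univ q) hq
    rw [e1]
    unfold vec fr
    have h1 := fract_sum {()} (fun _ => (Q : ℤ)) (fun _ : Unit => ((x q.1 : ℝ) * γ q.2 / ((M * Q : ℕ) : ℝ)))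
    simp only [Finset.sum_singleton, Int.cast_natCast] at h1
    rw [← h1]
    congr 1
    have : (Q : ℝ) ≠ 0 := by positivity
    push_cast
    by_cases hM : (M : ℝ) = 0
    · rw [hM]; simp
    · field_simp
  refine h _ _ _ _ (fun q => Pi.single q (Q : ℤ)) (vec_mem γ _ _) ?_ (key x) (key x') hx
  intro q i
  by_cases hqi : i = q
  · rw [hqi, Pi.single_eq_same, abs_of_nonneg (by positivity)]
  · rw [Pi.single_eq_of_ne hqi, abs_zero]; positivity

/-- a linear relation -/
theorem relation (hγ : Indep γ) {κ : Type} [Fintype κ] {M : ℕ} (hM : 0 < M) (z : κ → ℤ)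
    (m : κ × Fin d → ℤ) (k : ℤ) (h : lf m k (vec γ M z) = 0) (j : Fin d) : ∑ o, m (o, j) * z o = 0 := by
  have h1 : ∑ j : Fin d, ((∑ o, m (o, j) * z o : ℤ) : ℝ) * γ j =
      (((M : ℤ) * (∑ q : κ × Fin d, m q * ⌊(z q.1 : ℝ) * γ q.2 / M⌋ - k) : ℤ) : ℝ) := by
    unfold lf vec fr at h
    simp only [Int.fract] at h
    have hM' : (M : ℝ) ≠ 0 := by positivity
    have h2 : ∑ q : κ × Fin d, (m q : ℝ) * ((z q.1 : ℝ) * γ q.2 / M) =
        (∑ q : κ × Fin d, (m q : ℝ) * (⌊(z q.1 : ℝ) * γ q.2 / M⌋ : ℝ)) - k := by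
      have h3 : ∑ q : κ × Fin d, (m q : ℝ) * ((z q.1 : ℝ) * γ q.2 / M - (⌊(z q.1 : ℝ) * γ q.2 / M⌋ : ℝ)) =
        ∑ q : κ × Fin d, (m q : ℝ) * ((z q.1 : ℝ) * γ q.2 / M) -
        ∑ q : κ × Fin d, (m q : ℝ) * (⌊(z q.1 : ℝ) * γ q.2 / M⌋ : ℝ) := by
        rw [← Finset.sum_sub_distrib]
        apply Finset.sum_congr rfl; intro q _; ring
      rw [h3] at h
      linarith
    push_cast
    rw [← h2, Fintype.sum_prod_type_right, Finset.mul_sum]
    apply Finset.sum_congr rfl
    intro j _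
    rw [Finset.sum_mul, Finset.mul_sum]
    apply Finset.sum_congr rfl
    intro o _
    field_simp
  exact congrFun (hγ _ _ h1) j

theorem lf_ext {ι : Type} [Fintype ι] (m : Option ι × Fin d → ℤ) (k : ℤ) (z : Option ι × Fin d → ℝ) :
    lf m k z = ∑ j, (m (none, j) : ℝ) * z (none, j) + lf (fun q : ι × Fin d => m (some q.1, q.2)) k
      (fun q : ι × Fin d => z (some q.1, q.2)) := by
  unfold lf
  rw [Fintype.sum_prod_type, Fintype.sum_option, Fintype.sum_prod_type, add_assoc]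

/-- case 2 of the back and forth property: `y` is determined by `x` -/
theorem bf_alg {ι : Type} [Fintype ι] {M N : ℕ} (hM : 0 < M) (Q : ℕ) (hQ : 0 < Q) (B : ℤ) (hB : 0 ≤ B) :
    ∃ B' : ℤ, 0 ≤ B' ∧ ∀ x x' : ι → ℤ, Eqv γ (N * Q) (M * Q) B' x x' →
      ∀ (y : ℤ) (m : ℕ) (l : ι → ℤ), m ∣ Q → (∀ i, |l i| ≤ B) → (m : ℤ) * y = ∑ i, l i * x i →
      ∃ y' : ℤ, Eqv γ N M B (ext x y) (ext x' y') := by
  classical
  obtain ⟨B', hB', h⟩ := transfer (σ := ι × Fin d) (τ := Option ι × Fin d) ((Q : ℤ) + Q * B)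
    (by positivity) B hB
  refine ⟨B', hB', ?_⟩
  rintro x x' ⟨hx1, hx2⟩ y m l hmQ hl hy
  obtain ⟨q, hq⟩ := hmQ
  have hm0 : 0 < m := by
    rcases Nat.eq_zero_or_pos m with h0 | h0
    · rw [h0, zero_mul] at hq; omega
    · exact h0
  have hq0 : 0 < q := by
    rcases Nat.eq_zero_or_pos q with h0 | h0
    · rw [h0, mul_zero] at hq; omega
    · exact h0
  choose w hw using hx1
  obtain ⟨y', hy'⟩ : ∃ y', y' = y - N * (q * ∑ i, l i * w i) := ⟨_, rfl⟩
  have hy2 : (m : ℤ) * y' = ∑ i, l i * x' i := by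
    rw [hy', mul_sub, hy]
    have : ∀ i, l i * x' i = l i * x i - (m : ℤ) * (N * (q * (l i * w i))) := by
      intro i
      have := hw i
      have h2 : x' i = x i - (N * Q : ℕ) * w i := by linarith
      rw [h2, hq]
      push_cast; ring
    simp_rw [this]
    rw [Finset.sum_sub_distrib, ← Finset.mul_sum, ← Finset.mul_sum, ← Finset.mul_sum]
  refine ⟨y', ?_, ?_⟩
  · intro o
    cases o with
    | none =>
      change (N : ℤ) ∣ y - y'
      rw [hy']
      exact ⟨q * ∑ i, l i * w i, by ring⟩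
    | some i =>
      change (N : ℤ) ∣ x i - x' i
      rw [hw i]
      push_cast
      exact ⟨Q * w i, by ring⟩
  · -- the forms
    set a : Option ι × Fin d → ι × Fin d → ℤ := fun t s =>
      match t.1 with
      | none => if s.2 = t.2 then (q : ℤ) * l s.1 else 0
      | some i => if s = (i, t.2) then (Q : ℤ) else 0 with ha
    have key : ∀ (x : ι → ℤ) (y : ℤ), (m : ℤ) * y = ∑ i, l i * x i → ∀ t,
        vec γ M (ext x y) t = Int.fract (lf (a t) 0 (vec γ (M * Q) x)) := by
      intro x y hy t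
      obtain ⟨o, j⟩ := t
      have hM' : (M : ℝ) ≠ 0 := by positivity
      have hQ' : (Q : ℝ) ≠ 0 := by positivity
      cases o with
      | none =>
        have e1 : lf (a (none, j)) 0 (vec γ (M * Q) x) =
            ∑ i, (((q : ℤ) * l i : ℤ) : ℝ) * Int.fract ((x i : ℝ) * γ j / ((M * Q : ℕ) : ℝ)) := by
          unfold lf
          rw [Int.cast_zero, add_zero, Fintype.sum_prod_type]
          apply Finset.sum_congr rfl
          intro i _
          rw [Finset.sum_eq_single j]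
          · simp only [ha, if_true]; rfl
          · intro b _ hb
            simp only [ha, if_neg hb]; simp
          · intro hq; exact absurd (Finset.mem_univ j) hq
        rw [e1, ← fract_sum]
        change Int.fract ((y : ℝ) * γ j / M) = _
        congr 1
        have hy3 : (m : ℝ) * y = ∑ i, (l i : ℝ) * x i := by exact_mod_cast hy
        have hm' : (m : ℝ) ≠ 0 := by positivity
        have hq' : (q : ℝ) ≠ 0 := by positivity
        have e2 : (y : ℝ) = (∑ i, (l i : ℝ) * x i) / m := by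
          rw [← hy3]; field_simp
        rw [e2, hq]
        push_cast
        rw [Finset.sum_div, Finset.sum_mul, Finset.sum_div]
        apply Finset.sum_congr rfl
        intro i _
        field_simp
      | some i =>
        have e1 : lf (a (some i, j)) 0 (vec γ (M * Q) x) =
            (Q : ℝ) * Int.fract ((x i : ℝ) * γ j / ((M * Q : ℕ) : ℝ)) := by
          unfold lf
          rw [Int.cast_zero, add_zero, Finset.sum_eq_single (i, j)]
          · simp only [ha, if_true]
            unfold vec fr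
            push_cast; rfl
          · intro b _ hb
            simp only [ha, if_neg hb]; simp
          · intro hq; exact absurd (Finset.mem_univ _) hq
        rw [e1]
        have h1 := fract_sum {()} (fun _ => (Q : ℤ)) (fun _ : Unit => ((x i : ℝ) * γ j / ((M * Q : ℕ) : ℝ)))
        simp only [Finset.sum_singleton, Int.cast_natCast] at h1
        rw [← h1]
        change Int.fract ((x i : ℝ) * γ j / M) = _
        congr 1
        push_cast
        field_simp
    refine h _ _ _ _ a (vec_mem γ _ _) ?_ (key x y hy) (key x' y' hy2) hx2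
    intro t s
    obtain ⟨o, j⟩ := t
    have hqQ : (q : ℤ) ≤ Q := by
      rw [hq]; push_cast
      have : (1 : ℤ) ≤ m := by exact_mod_cast hm0
      nlinarith [show (0 : ℤ) ≤ q by positivity]
    cases o with
    | none =>
      simp only [ha]
      split_ifs
      · rw [abs_mul, abs_of_nonneg (by positivity : (0 : ℤ) ≤ q)]
        have h1 : (q : ℤ) * |l s.1| ≤ Q * B := mul_le_mul hqQ (hl s.1) (abs_nonneg _) (by positivity)
        have : (0 : ℤ) ≤ Q := by positivity
        linarith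
      · rw [abs_zero]; positivity
    | some i =>
      simp only [ha]
      split_ifs
      · rw [abs_of_nonneg (by positivity)]
        have : (0 : ℤ) ≤ Q * B := by positivity
        linarith
      · rw [abs_zero]; positivity

end bf

end Pool.Agent.W5h91.Nip
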