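import Pool.Agent.W5h91.Nip.Ind

/-! Tame relations have finite Vapnik-Chervonenkis dimension; NIP. -/

set_option autoImplicit false
set_option linter.all false

namespace Pool.Agent.W5h91.Nip

open Filter Topology Finset FirstOrder

universe u

/-- the formula `φ(x; y)` has the independence property in `M` -/
def HasIP {L : FirstOrder.Language.{0, 0}} (M : Type u) [L.Structure M] {p q : ℕ}
    (φ : L.Formula (Fin p ⊕ Fin q)) : Prop :=
  ∃ (a : ℕ → Fin p → M) (b : Set ℕ → Fin q → M), ∀ (i : ℕ) (S : Set ℕ),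
    φ.Realize (Sum.elim (a i) (b S)) ↔ i ∈ S

/-- the theory `T` is NIP: no formula has the independence property in a model of `T` -/
def IsNIP {L : FirstOrder.Language.{0, 0}} (T : L.Theory) : Prop :=
  ∀ (M : Type u) [L.Structure M] [Nonempty M] [M ⊨ T] (p q : ℕ) (φ : L.Formula (Fin p ⊕ Fin q)),
    ¬ HasIP M φ

/-- shattering of a finite set -/
def Shatters {L : FirstOrder.Language.{0, 0}} (M : Type u) [L.Structure M] {p q : ℕ}
    (φ : L.Formula (Fin p ⊕ Fin q)) (t : ℕ) : Prop :=
  ∃ (a : Fin t → Fin p → M) (b : Finset (Fin t) → Fin q → M), ∀ (i : Fin t) (S : Finset (Fin t)),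
    φ.Realize (Sum.elim (a i) (b S)) ↔ i ∈ S

section sentence

variable {L : FirstOrder.Language.{0, 0}} {p q : ℕ}

/-- the variables -/
abbrev VV (p q t : ℕ) : Type := (Fin t × Fin p) ⊕ (Finset (Fin t) × Fin q)

open Classical in
/-- the conditions for shattering -/
noncomputable def cond (φ : L.Formula (Fin p ⊕ Fin q)) (t : ℕ) (s : Fin t × Finset (Fin t)) :
    L.Formula (VV p q t) :=
  if s.1 ∈ s.2 then φ.relabel (Sum.elim (fun j => Sum.inl (s.1, j)) (fun k => Sum.inr (s.2, k)))
    else (φ.relabel (Sum.elim (fun j => Sum.inl (s.1, j)) (fun k => Sum.inr (s.2, k)))).not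

/-- the sentence which says that `φ` shatters a set with `t` elements -/
noncomputable def shat (φ : L.Formula (Fin p ⊕ Fin q)) (t : ℕ) : L.Sentence :=
  ((FirstOrder.Language.Formula.iInf (cond φ t)).relabel (Sum.inr : VV p q t → Empty ⊕ VV p q t)).iExs
    (VV p q t)

theorem realize_shat (φ : L.Formula (Fin p ⊕ Fin q)) (t : ℕ) (M : Type u) [L.Structure M] :
    M ⊨ shat φ t ↔ Shatters M φ t := by
  classical
  unfold FirstOrder.Language.Sentence.Realize shat
  rw [FirstOrder.Language.Formula.realize_iExs]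
  constructor
  · rintro ⟨v, hv⟩
    rw [FirstOrder.Language.Formula.realize_relabel, FirstOrder.Language.Formula.realize_iInf] at hv
    refine ⟨fun i j => v (Sum.inl (i, j)), fun S k => v (Sum.inr (S, k)), fun i S => ?_⟩
    have h1 := hv (i, S)
    have e : (Sum.elim (fun j => v (Sum.inl (i, j))) (fun k => v (Sum.inr (S, k)))) =
        ((Sum.elim (default : Empty → M) v) ∘ Sum.inr) ∘
          (Sum.elim (fun j => Sum.inl (i, j)) (fun k => Sum.inr (S, k)) : Fin p ⊕ Fin q → VV p q t) := by
      funext x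
      rcases x with x | x <;> rfl
    unfold cond at h1
    by_cases hi : i ∈ S
    · rw [if_pos hi, FirstOrder.Language.Formula.realize_relabel] at h1
      rw [e]
      exact ⟨fun _ => hi, fun _ => h1⟩
    · rw [if_neg hi, FirstOrder.Language.Formula.realize_not,
        FirstOrder.Language.Formula.realize_relabel] at h1
      rw [e]
      exact ⟨fun h => absurd h h1, fun h => absurd h hi⟩
  · rintro ⟨a, b, hab⟩
    refine ⟨Sum.elim (fun s => a s.1 s.2) (fun s => b s.1 s.2), ?_⟩
    rw [FirstOrder.Language.Formula.realize_relabel, FirstOrder.Language.Formula.realize_iInf]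
    rintro ⟨i, S⟩
    have e : ((Sum.elim (default : Empty → M)
        (Sum.elim (fun s => a s.1 s.2) (fun s => b s.1 s.2) : VV p q t → M)) ∘ Sum.inr) ∘
          (Sum.elim (fun j => Sum.inl (i, j)) (fun k => Sum.inr (S, k)) : Fin p ⊕ Fin q → VV p q t) =
        Sum.elim (a i) (b S) := by
      funext x
      rcases x with x | x <;> rfl
    unfold cond
    by_cases hi : i ∈ S
    · rw [if_pos hi, FirstOrder.Language.Formula.realize_relabel, e]
      exact (hab i S).mpr hi
    · rw [if_neg hi, FirstOrder.Language.Formula.realize_not,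
        FirstOrder.Language.Formula.realize_relabel, e]
      exact fun h => hi ((hab i S).mp h)

/-- if `φ` does not shatter arbitrarily large finite sets in `M` then it is NIP in all models of the
theory of `M` -/
theorem not_hasIP (M : Type) [L.Structure M] (φ : L.Formula (Fin p ⊕ Fin q)) (t : ℕ)
    (ht : ¬ Shatters M φ t) (N : Type u) [L.Structure N] [N ⊨ L.completeTheory M] :
    ¬ HasIP N φ := by
  classical
  rintro ⟨a, b, hab⟩
  apply ht
  rw [← realize_shat, ← FirstOrder.Language.realize_iff_of_model_completeTheory M N, realize_shat]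
  refine ⟨fun i => a i, fun S => b {n | ∃ h : n < t, (⟨n, h⟩ : Fin t) ∈ S}, fun i S => ?_⟩
  rw [hab]
  constructor
  · rintro ⟨h, h1⟩
    exact h1
  · intro h
    exact ⟨i.2, h⟩

end sentence

section vc

variable {d : ℕ} {γ : Fin d → ℝ}

/-- exponentials grow faster than polynomials -/
theorem exists_big (C K : ℕ) : ∃ t : ℕ, C * (t + 1) ^ K < 2 ^ t := by
  have h := tendsto_pow_const_div_const_pow_of_one_lt K (show (1 : ℝ) < 2 by norm_num)
  have h1 := h.eventually (gt_mem_nhds (show (0 : ℝ) < 1 / (2 * (C + 1)) by positivity))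
  obtain ⟨n, hn1, hn2⟩ := (h1.and (eventually_ge_atTop 1)).exists
  obtain ⟨t, rfl⟩ : ∃ t, n = t + 1 := ⟨n - 1, by omega⟩
  refine ⟨t, ?_⟩
  rw [div_lt_div_iff₀ (by positivity) (by positivity)] at hn1
  have h2 : ((C * (t + 1) ^ K : ℕ) : ℝ) < ((2 ^ t : ℕ) : ℝ) := by
    push_cast at hn1 ⊢
    rw [pow_succ] at hn1
    have h3 : (0 : ℝ) < ((t : ℝ) + 1) ^ K := by positivity
    nlinarith
  exact_mod_cast h2

/-- **tame relations have finite VC dimension** -/
theorem tame_vc {p q : ℕ} {P : (Fin p ⊕ Fin q → ℤ) → Prop} (hP : Tame γ P) :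
    ∃ t : ℕ, ¬ ∃ (a : Fin t → Fin p → ℤ) (b : Finset (Fin t) → Fin q → ℤ),
      ∀ (i : Fin t) (S : Finset (Fin t)), P (Sum.elim (a i) (b S)) ↔ i ∈ S := by
  classical
  obtain ⟨N, M, B, hN, hM, h⟩ := hP
  haveI : NeZero N := ⟨hN.ne'⟩
  set Fm := ((Fin p ⊕ Fin q) × Fin d → Finset.Icc (-(B : ℤ)) B) × Finset.Icc (-(B : ℤ)) B with hFm
  obtain ⟨t, ht⟩ := exists_big (N ^ q) (Fintype.card Fm)
  refine ⟨t, ?_⟩
  rintro ⟨a, b, hab⟩
  -- the set of the `i` at which a form is positive
  set T : Finset (Fin t) → Fm → Finset (Fin t) := fun S f => Finset.univ.filter fun i =>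
    0 < lf (fun s => ((f.1 s : ℤ))) (f.2 : ℤ) (vec γ M (Sum.elim (a i) (b S))) with hT
  have hcard : ∀ S f, (T S f).card < t + 1 := by
    intro S f
    have := Finset.card_le_univ (T S f)
    rw [Fintype.card_fin] at this
    omega
  set sig : Finset (Fin t) → (Fin q → ZMod N) × (Fm → Fin (t + 1)) := fun S =>
    (fun k => (b S k : ZMod N), fun f => ⟨(T S f).card, hcard S f⟩) with hsig
  have hsplit : ∀ (f : Fm) (i : Fin t) (S : Finset (Fin t)),
      lf (fun s => ((f.1 s : ℤ))) (f.2 : ℤ) (vec γ M (Sum.elim (a i) (b S))) =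
        (∑ s : Fin p × Fin d, ((f.1 (Sum.inl s.1, s.2) : ℤ) : ℝ) * fr γ M (a i s.1) s.2) +
        ((∑ s : Fin q × Fin d, ((f.1 (Sum.inr s.1, s.2) : ℤ) : ℝ) * fr γ M (b S s.1) s.2) +
          ((f.2 : ℤ) : ℝ)) := by
    intro f i S
    unfold lf
    rw [Fintype.sum_prod_type, Fintype.sum_sum_type, Fintype.sum_prod_type, Fintype.sum_prod_type,
      add_assoc]
    rfl
  have hinj : Function.Injective sig := by
    intro S S' hSS
    have h1 : ∀ k, (b S k : ZMod N) = (b S' k : ZMod N) := fun k => congrFun (congrArg Prod.fst hSS) k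
    have h2 : ∀ f, (T S f).card = (T S' f).card := fun f =>
      congrArg Fin.val (congrFun (congrArg Prod.snd hSS) f)
    have h3 : ∀ f, T S f = T S' f := by
      intro f
      rcases le_total ((∑ s : Fin q × Fin d, ((f.1 (Sum.inr s.1, s.2) : ℤ) : ℝ) * fr γ M (b S s.1) s.2) +
          ((f.2 : ℤ) : ℝ)) ((∑ s : Fin q × Fin d, ((f.1 (Sum.inr s.1, s.2) : ℤ) : ℝ) *
          fr γ M (b S' s.1) s.2) + ((f.2 : ℤ) : ℝ)) with hle | hle
      · apply Finset.eq_of_subset_of_card_le _ (h2 f).ge
        intro i hi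
        simp only [hT, Finset.mem_filter, Finset.mem_univ, true_and] at hi ⊢
        rw [hsplit] at hi ⊢
        linarith
      · symm
        apply Finset.eq_of_subset_of_card_le _ (h2 f).le
        intro i hi
        simp only [hT, Finset.mem_filter, Finset.mem_univ, true_and] at hi ⊢
        rw [hsplit] at hi ⊢
        linarith
    ext i
    rw [← hab i S, ← hab i S']
    apply h
    constructor
    · rintro (s | k)
      · simp
      · simp only [Sum.elim_inr]
        have := h1 k
        rw [← sub_eq_zero, ← Int.cast_sub, ZMod.intCast_zmod_eq_zero_iff_dvd] at this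
        exact this
    · intro m k hm _ hk
      have h4 := h3 (fun s => ⟨m s, by rw [Finset.mem_Icc]; exact abs_le.mp (hm s)⟩,
        ⟨k, by rw [Finset.mem_Icc]; exact abs_le.mp hk⟩)
      have h5 := congrArg (fun X : Finset (Fin t) => i ∈ X) h4
      simp only [hT, Finset.mem_filter, Finset.mem_univ, true_and] at h5
      exact iff_of_eq h5
  have h6 := Fintype.card_le_of_injective sig hinj
  rw [Fintype.card_prod, Fintype.card_fun, Fintype.card_fun, Fintype.card_finset, Fintype.card_fin,
    Fintype.card_fin, Fintype.card_fin, ZMod.card] at h6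
  omega

end vc

end Pool.Agent.W5h91.Nip
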